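import Mathlib

/-!
Branching random walks indexed by words: the canonical space, shifts, and independence.
-/

set_option autoImplicit false
set_option linter.unusedSectionVars false

namespace Pool.Agent.L7h96.BRW

open MeasureTheory ProbabilityTheory
open scoped ENNReal

/-- the label of a particle: its number of children and the steps of its potential children -/
abbrev Lab (D : ℕ) := ℕ × (ℕ → Fin D)

/-- labelled genealogical trees; particles are words (paths from the root) -/
abbrev Om (D : ℕ) := List ℕ → Lab D

/-- the tree seen from the particle `j` -/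
def sh {D : ℕ} (j : List ℕ) (ω : Om D) : Om D := fun w => ω (j ++ w)

theorem sh_apply {D : ℕ} (j w : List ℕ) (ω : Om D) : sh j ω w = ω (j ++ w) := rfl

@[simp] theorem sh_nil {D : ℕ} (ω : Om D) : sh [] ω = ω := rfl

theorem sh_sh {D : ℕ} (i j : List ℕ) (ω : Om D) : sh i (sh j ω) = sh (j ++ i) ω := by
  funext w
  simp [sh, List.append_assoc]

theorem measurable_sh {D : ℕ} (j : List ℕ) : Measurable (sh (D := D) j) :=
  measurable_pi_lambda _ fun _ => measurable_pi_apply _

variable {D : ℕ} [NeZero D]

/-- the law of a label -/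
noncomputable def nu (D : ℕ) [NeZero D] (μ : PMF ℕ) : Measure (Lab D) :=
  μ.toMeasure.prod (Measure.infinitePi fun _ : ℕ => (PMF.uniformOfFintype (Fin D)).toMeasure)

instance (μ : PMF ℕ) : IsProbabilityMeasure (nu D μ) := by
  unfold nu
  infer_instance

/-- the law of the labelled tree -/
noncomputable def P0 (D : ℕ) [NeZero D] (μ : PMF ℕ) : Measure (Om D) :=
  Measure.infinitePi fun _ : List ℕ => nu D μ

instance (μ : PMF ℕ) : IsProbabilityMeasure (P0 D μ) := by
  unfold P0
  infer_instance

variable {μ : PMF ℕ}

theorem map_sh (j : List ℕ) : (P0 D μ).map (sh j) = P0 D μ := by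
  unfold P0
  exact Measure.map_infinitePi_infinitePi_of_inj (P := fun _ : List ℕ => nu D μ)
    (f := fun w : List ℕ => j ++ w) (fun a b h => List.append_cancel_left h)

theorem map_root : (P0 D μ).map (fun ω => ω []) = nu D μ := by
  unfold P0
  exact Measure.infinitePi_map_eval _ _

theorem map_coord (w : List ℕ) : (P0 D μ).map (fun ω => ω w) = nu D μ := by
  unfold P0
  exact Measure.infinitePi_map_eval _ _

theorem lintegral_sh (j : List ℕ) {f : Om D → ℝ≥0∞} (hf : Measurable f) :
    ∫⁻ ω, f (sh j ω) ∂(P0 D μ) = ∫⁻ ω, f ω ∂(P0 D μ) := by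
  rw [← lintegral_map hf (measurable_sh j), map_sh]

theorem lintegral_root {f : Lab D → ℝ≥0∞} (hf : Measurable f) :
    ∫⁻ ω, f (ω []) ∂(P0 D μ) = ∫⁻ s, f s ∂(nu D μ) := by
  rw [← lintegral_map hf (measurable_pi_apply []), map_root]

/-- forget the labels of the descendants of `j` -/
noncomputable def md (j : List ℕ) (ω : Om D) : Om D := fun u =>
  open scoped Classical in if j <+: u then (0, fun _ => 0) else ω u

theorem measurable_md (j : List ℕ) : Measurable (md (D := D) j) := by
  classical
  refine measurable_pi_lambda _ fun w => ?_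
  unfold md
  split_ifs
  · exact measurable_const
  · exact measurable_pi_apply _

theorem indep_md_sh (j : List ℕ) : IndepFun (md j) (sh j) (P0 D μ) := by
  classical
  have h1 : iIndepFun (fun (i : List ℕ) (ω : Om D) => ω i) (P0 D μ) :=
    iIndepFun_infinitePi (P := fun _ : List ℕ => nu D μ) (X := fun _ x => x)
      (fun _ => measurable_id)
  have h2 : iIndep (fun i : List ℕ => MeasurableSpace.comap (fun ω : Om D => ω i) inferInstance)
      (P0 D μ) := h1
  have hdis : Disjoint {u : List ℕ | ¬ j <+: u} {u : List ℕ | j <+: u} := by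
    rw [Set.disjoint_left]
    intro u hu hu'
    exact hu hu'
  have h3 := indep_iSup_of_disjoint (fun i => (measurable_pi_apply i).comap_le) h2 hdis
  rw [IndepFun_iff_Indep]
  refine indep_of_indep_of_le_left (indep_of_indep_of_le_right h3 ?_) ?_
  · have : Measurable[⨆ i ∈ {u : List ℕ | j <+: u},
        MeasurableSpace.comap (fun ω : Om D => ω i) inferInstance] (sh (D := D) j) := by
      refine @measurable_pi_lambda _ _ _ (_) _ _ fun w => ?_
      refine Measurable.mono (comap_measurable _) ?_ le_rfl
      exact le_iSup₂_of_le (j ++ w) (List.prefix_append _ _) le_rfl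
    exact this.comap_le
  · have : Measurable[⨆ i ∈ {u : List ℕ | ¬ j <+: u},
        MeasurableSpace.comap (fun ω : Om D => ω i) inferInstance] (md (D := D) j) := by
      refine @measurable_pi_lambda _ _ _ (_) _ _ fun w => ?_
      unfold md
      by_cases hw : j <+: w
      · simp only [hw, if_true]
        exact measurable_const
      · simp only [hw, if_false]
        refine Measurable.mono (comap_measurable _) ?_ le_rfl
        exact le_iSup₂_of_le w hw le_rfl
    exact this.comap_le

/-- **resampling**: the tree of descendants of `j` may be replaced by an independent copy -/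
theorem resample (j : List ℕ) {Ψ : Om D → Om D → ℝ≥0∞} (hΨ : Measurable (Function.uncurry Ψ))
    (hins : ∀ ω ω' b, (∀ u, ¬ j <+: u → ω u = ω' u) → Ψ ω b = Ψ ω' b) :
    ∫⁻ ω, Ψ ω (sh j ω) ∂(P0 D μ) = ∫⁻ ω, ∫⁻ b, Ψ ω b ∂(P0 D μ) ∂(P0 D μ) := by
  have e : ∀ ω b, Ψ ω b = Ψ (md j ω) b := by
    intro ω b
    apply hins
    intro u hu
    simp [md, hu]
  have hpair : (P0 D μ).map (fun ω => (md j ω, sh j ω)) = ((P0 D μ).map (md j)).prod (P0 D μ) := by
    have := (indepFun_iff_map_prod_eq_prod_map_map (measurable_md j).aemeasurable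
      (measurable_sh j).aemeasurable).1 (indep_md_sh (D := D) (μ := μ) j)
    rw [this, map_sh]
  calc ∫⁻ ω, Ψ ω (sh j ω) ∂(P0 D μ) = ∫⁻ ω, Function.uncurry Ψ (md j ω, sh j ω) ∂(P0 D μ) := by
        refine lintegral_congr fun ω => ?_
        rw [e]
        rfl
    _ = ∫⁻ p, Function.uncurry Ψ p ∂((P0 D μ).map (fun ω => (md j ω, sh j ω))) := by
        rw [lintegral_map hΨ ((measurable_md j).prodMk (measurable_sh j))]
    _ = ∫⁻ a, ∫⁻ b, Ψ a b ∂(P0 D μ) ∂((P0 D μ).map (md j)) := by
        rw [hpair]
        have : IsProbabilityMeasure ((P0 D μ).map (md j)) :=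
          Measure.isProbabilityMeasure_map (measurable_md j).aemeasurable
        rw [lintegral_prod _ hΨ.aemeasurable]
        rfl
    _ = ∫⁻ ω, ∫⁻ b, Ψ (md j ω) b ∂(P0 D μ) ∂(P0 D μ) := by
        rw [lintegral_map (f := fun a => ∫⁻ b, Ψ a b ∂(P0 D μ)) ?_ (measurable_md j)]
        exact Measurable.lintegral_prod_right' hΨ
    _ = _ := by
        refine lintegral_congr fun ω => lintegral_congr fun b => ?_
        rw [← e]

/-- average over the steps -/
noncomputable def av (f : Fin D → ℝ≥0∞) : ℝ≥0∞ := (∑ i, f i) / D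

/-- the first step of the child `c` -/
def st (c : ℕ) (ω : Om D) : Fin D := (ω []).2 c

omit [NeZero D] in
theorem measurable_st (c : ℕ) : Measurable (st (D := D) c) :=
  (measurable_pi_apply c).comp (measurable_snd.comp (measurable_pi_apply ([] : List ℕ)))

omit [NeZero D] in
theorem measurable_num : Measurable (fun ω : Om D => (ω []).1) :=
  measurable_fst.comp (measurable_pi_apply ([] : List ℕ))

omit [NeZero D] in
theorem measurable_child' {F : Fin D → Om D → ℝ≥0∞} (hF : ∀ i, Measurable (F i)) (c : ℕ) :
    Measurable (fun ω => F (st c ω) (sh [c] ω)) := by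
  have h : Measurable (fun p : Fin D × Om D => F p.1 p.2) :=
    measurable_from_prod_countable_right hF
  exact h.comp ((measurable_st c).prodMk (measurable_sh [c]))

theorem measurable_child {F : Fin D → Om D → ℝ≥0∞} (hF : ∀ i, Measurable (F i)) (c : ℕ) :
    Measurable (fun ω => F (st c ω) (sh [c] ω)) := by
  have h : Measurable (fun p : Fin D × Om D => F p.1 p.2) :=
    measurable_from_prod_countable_right hF
  exact h.comp ((measurable_st c).prodMk (measurable_sh [c]))

theorem peel {F : Fin D → Om D → ℝ≥0∞} (hF : ∀ i, Measurable (F i)) (c : ℕ)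
    {H : Om D → ℝ≥0∞} (hH : Measurable H)
    (hins : ∀ ω ω', (∀ u, ¬ [c] <+: u → ω u = ω' u) → H ω = H ω') :
    ∫⁻ ω, H ω * F (st c ω) (sh [c] ω) ∂(P0 D μ) =
      ∫⁻ ω, H ω * (∫⁻ b, F (st c ω) b ∂(P0 D μ)) ∂(P0 D μ) := by
  have h : Measurable (fun p : Fin D × Om D => F p.1 p.2) :=
    measurable_from_prod_countable_right hF
  rw [resample (μ := μ) [c] (Ψ := fun ω b => H ω * F (st c ω) b)]
  · refine lintegral_congr fun ω => ?_
    rw [lintegral_const_mul _ (hF _)]
  · exact (hH.comp measurable_fst).mul
      (h.comp (((measurable_st c).comp measurable_fst).prodMk measurable_snd))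
  · intro ω ω' b hu
    have e : st c ω = st c ω' := by
      unfold st
      rw [hu [] (by simp)]
    simp only [e, hins ω ω' hu]

theorem lintegral_unif (f : Fin D → ℝ≥0∞) (c : ℕ) :
    ∫⁻ ξ : ℕ → Fin D, f (ξ c)
      ∂(Measure.infinitePi fun _ : ℕ => (PMF.uniformOfFintype (Fin D)).toMeasure) = av f := by
  rw [← lintegral_map (f := f) (g := fun ξ : ℕ → Fin D => ξ c) (measurable_of_finite f)
    (measurable_pi_apply c), Measure.infinitePi_map_eval, lintegral_fintype]
  unfold av
  rw [div_eq_mul_inv, Finset.sum_mul]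
  refine Finset.sum_congr rfl fun i _ => ?_
  rw [PMF.toMeasure_apply_singleton _ _ (measurableSet_singleton i), PMF.uniformOfFintype_apply,
    Fintype.card_fin]

theorem lintegral_unif_prod (f : Fin D → ℝ≥0∞) (k : ℕ) :
    ∫⁻ ξ : ℕ → Fin D, ∏ c ∈ Finset.range k, f (ξ c)
      ∂(Measure.infinitePi fun _ : ℕ => (PMF.uniformOfFintype (Fin D)).toMeasure) = av f ^ k := by
  rw [lintegral_prod_eq_prod_lintegral_of_indepFun (Finset.range k)
    (fun c (ξ : ℕ → Fin D) => f (ξ c)) ?_ ?_]
  · simp [lintegral_unif]
  · exact iIndepFun_infinitePi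
      (P := fun _ : ℕ => (PMF.uniformOfFintype (Fin D)).toMeasure) (X := fun _ => f)
      (fun _ => measurable_of_finite f)
  · intro c
    exact (measurable_of_finite f).comp (measurable_pi_apply c)

theorem branch_fixed {F : Fin D → Om D → ℝ≥0∞} (hF : ∀ i, Measurable (F i)) (k : ℕ) :
    ∫⁻ ω, (if (ω []).1 = k then 1 else 0) *
      ∏ c ∈ Finset.range k, F (st c ω) (sh [c] ω) ∂(P0 D μ) =
    μ k * av (fun i => ∫⁻ b, F i b ∂(P0 D μ)) ^ k := by
  classical
  set f : Fin D → ℝ≥0∞ := fun i => ∫⁻ b, F i b ∂(P0 D μ) with hf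
  have hI : Measurable (fun ω : Om D => (if (ω []).1 = k then (1 : ℝ≥0∞) else 0)) :=
    Measurable.ite (measurable_num (measurableSet_singleton k)) measurable_const measurable_const
  have key : ∀ j, ∫⁻ ω, (if (ω []).1 = k then 1 else 0) *
      ∏ c ∈ Finset.range k, (if c < j then F (st c ω) (sh [c] ω) else f (st c ω)) ∂(P0 D μ) =
      ∫⁻ ω, (if (ω []).1 = k then 1 else 0) * ∏ c ∈ Finset.range k, f (st c ω) ∂(P0 D μ) := by
    intro j
    induction j with
    | zero => simp
    | succ j ih =>
      rw [← ih]
      by_cases hj : j < k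
      · have hjm : j ∈ Finset.range k := Finset.mem_range.2 hj
        have e1 : ∀ ω : Om D, (if (ω []).1 = k then 1 else 0) *
            ∏ c ∈ Finset.range k, (if c < j + 1 then F (st c ω) (sh [c] ω) else f (st c ω)) =
            ((if (ω []).1 = k then 1 else 0) * ∏ c ∈ (Finset.range k).erase j,
              (if c < j then F (st c ω) (sh [c] ω) else f (st c ω))) *
              F (st j ω) (sh [j] ω) := by
          intro ω
          rw [← Finset.mul_prod_erase _ _ hjm, if_pos (Nat.lt_succ_self j)]
          rw [mul_comm (F (st j ω) (sh [j] ω)), ← mul_assoc]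
          congr 2
          refine Finset.prod_congr rfl fun c hc => ?_
          have : c ≠ j := Finset.ne_of_mem_erase hc
          have hh : c < j + 1 ↔ c < j := by omega
          simp only [hh]
        have e2 : ∀ ω : Om D, (if (ω []).1 = k then 1 else 0) *
            ∏ c ∈ Finset.range k, (if c < j then F (st c ω) (sh [c] ω) else f (st c ω)) =
            ((if (ω []).1 = k then 1 else 0) * ∏ c ∈ (Finset.range k).erase j,
              (if c < j then F (st c ω) (sh [c] ω) else f (st c ω))) *
              f (st j ω) := by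
          intro ω
          rw [← Finset.mul_prod_erase _ _ hjm, if_neg (lt_irrefl j)]
          rw [mul_comm (f (st j ω)), ← mul_assoc]
        simp_rw [e1, e2]
        refine peel hF j (H := fun ω => (if (ω []).1 = k then 1 else 0) *
          ∏ c ∈ (Finset.range k).erase j,
            (if c < j then F (st c ω) (sh [c] ω) else f (st c ω))) ?_ ?_
        · refine hI.mul (Finset.measurable_prod _ fun c _ => ?_)
          split_ifs
          · exact measurable_child hF c
          · exact (measurable_of_finite f).comp (measurable_st c)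
        · intro ω ω' hu
          have h0 : ω [] = ω' [] := hu [] (by simp)
          have hst : ∀ c, st c ω = st c ω' := by
            intro c
            unfold st
            rw [h0]
          have hshc : ∀ c, c ≠ j → sh [c] ω = sh [c] ω' := by
            intro c hc
            funext w
            refine hu _ ?_
            intro hp
            rw [List.singleton_append, List.cons_prefix_cons] at hp
            exact hc hp.1.symm
          simp only [h0]
          congr 1
          refine Finset.prod_congr rfl fun c hc => ?_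
          rw [hst c, hshc c (Finset.ne_of_mem_erase hc)]
      · refine lintegral_congr fun ω => ?_
        congr 1
        refine Finset.prod_congr rfl fun c hc => ?_
        have hc' := Finset.mem_range.1 hc
        rw [if_pos (by omega), if_pos (by omega)]
  have h1 := key k
  have e3 : ∀ ω : Om D, ∏ c ∈ Finset.range k,
      (if c < k then F (st c ω) (sh [c] ω) else f (st c ω)) =
      ∏ c ∈ Finset.range k, F (st c ω) (sh [c] ω) := by
    intro ω
    refine Finset.prod_congr rfl fun c hc => ?_
    rw [if_pos (Finset.mem_range.1 hc)]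
  simp_rw [e3] at h1
  rw [h1]
  have hm1 : Measurable (fun n : ℕ => (if n = k then (1 : ℝ≥0∞) else 0)) :=
    measurable_of_countable _
  have hm2 : Measurable (fun ξ : ℕ → Fin D => ∏ c ∈ Finset.range k, f (ξ c)) :=
    Finset.measurable_prod _ fun c _ => (measurable_of_finite f).comp (measurable_pi_apply c)
  have h2 := lintegral_root (D := D) (μ := μ)
    (f := fun s : Lab D => (if s.1 = k then 1 else 0) * ∏ c ∈ Finset.range k, f (s.2 c))
    ((hm1.comp measurable_fst).mul (hm2.comp measurable_snd))
  have h3 : ∫⁻ s, (if s.1 = k then 1 else 0) * ∏ c ∈ Finset.range k, f (s.2 c) ∂(nu D μ) =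
      μ k * av f ^ k := by
    unfold nu
    rw [lintegral_prod_mul (f := fun n : ℕ => (if n = k then (1 : ℝ≥0∞) else 0))
      (g := fun ξ : ℕ → Fin D => ∏ c ∈ Finset.range k, f (ξ c)) hm1.aemeasurable
      hm2.aemeasurable, lintegral_unif_prod]
    congr 1
    have : (fun n : ℕ => (if n = k then (1 : ℝ≥0∞) else 0)) = Set.indicator {k} 1 := by
      funext n
      simp [Set.indicator_apply]
    rw [this, lintegral_indicator_one (measurableSet_singleton k),
      PMF.toMeasure_apply_singleton _ _ (measurableSet_singleton k)]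
  rw [← h3, ← h2]
  rfl

/-- probability generating function -/
noncomputable def Phi (μ : PMF ℕ) (u : ℝ≥0∞) : ℝ≥0∞ := ∑' k, μ k * u ^ k

theorem measurable_branch {F : Fin D → Om D → ℝ≥0∞} (hF : ∀ i, Measurable (F i)) :
    Measurable (fun ω : Om D => ∏ c ∈ Finset.range (ω []).1, F (st c ω) (sh [c] ω)) := by
  have h : Measurable (fun p : ℕ × Om D => ∏ c ∈ Finset.range p.1, F (st c p.2) (sh [c] p.2)) :=
    measurable_from_prod_countable_right fun k =>
      (Finset.measurable_prod (Finset.range k) fun c _ => measurable_child hF c :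
        Measurable fun ω : Om D => ∏ c ∈ Finset.range k, F (st c ω) (sh [c] ω))
  exact h.comp (measurable_num.prodMk measurable_id)

/-- **branching formula for products** -/
theorem branch_prod {F : Fin D → Om D → ℝ≥0∞} (hF : ∀ i, Measurable (F i)) :
    ∫⁻ ω, ∏ c ∈ Finset.range (ω []).1, F (st c ω) (sh [c] ω) ∂(P0 D μ) =
    Phi μ (av (fun i => ∫⁻ b, F i b ∂(P0 D μ))) := by
  classical
  have e : ∀ ω : Om D, ∏ c ∈ Finset.range (ω []).1, F (st c ω) (sh [c] ω) =
      ∑' k, (if (ω []).1 = k then 1 else 0) *
        ∏ c ∈ Finset.range k, F (st c ω) (sh [c] ω) := by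
    intro ω
    rw [tsum_eq_single (ω []).1]
    · simp
    · intro k hk
      rw [if_neg (Ne.symm hk), zero_mul]
  simp_rw [e]
  rw [lintegral_tsum]
  · unfold Phi
    exact tsum_congr fun k => branch_fixed hF k
  · intro k
    refine (Measurable.mul ?_ (Finset.measurable_prod _ fun c _ =>
      measurable_child hF c)).aemeasurable
    exact Measurable.ite (measurable_num (measurableSet_singleton k)) measurable_const
      measurable_const

/-- mean number of children -/
noncomputable def mean (μ : PMF ℕ) : ℝ≥0∞ := ∑' k : ℕ, μ k * k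

/-- **branching formula for sums** -/
theorem branch_sum {F : Fin D → Om D → ℝ≥0∞} (hF : ∀ i, Measurable (F i)) :
    ∫⁻ ω, ∑ c ∈ Finset.range (ω []).1, F (st c ω) (sh [c] ω) ∂(P0 D μ) =
    mean μ * av (fun i => ∫⁻ b, F i b ∂(P0 D μ)) := by
  classical
  set f : Fin D → ℝ≥0∞ := fun i => ∫⁻ b, F i b ∂(P0 D μ) with hf
  have e : ∀ (g : ℕ → ℝ≥0∞) (N : ℕ), ∑ c ∈ Finset.range N, g c =
      ∑' c, (if c < N then 1 else 0) * g c := by
    intro g N
    rw [tsum_eq_sum (s := Finset.range N)]
    · refine Finset.sum_congr rfl fun c hc => ?_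
      rw [if_pos (Finset.mem_range.1 hc), one_mul]
    · intro c hc
      rw [if_neg (by simpa using hc), zero_mul]
  have hI : ∀ c : ℕ, Measurable (fun ω : Om D => (if c < (ω []).1 then (1 : ℝ≥0∞) else 0)) :=
    fun c => Measurable.ite (measurable_num (measurableSet_Ioi (a := c))) measurable_const
      measurable_const
  simp_rw [e]
  rw [lintegral_tsum (f := fun (c : ℕ) (ω : Om D) => (if c < (ω []).1 then 1 else 0) *
    F (st c ω) (sh [c] ω)) fun c => ((hI c).mul (measurable_child hF c)).aemeasurable]
  have h1 : ∀ c : ℕ, ∫⁻ ω, (if c < (ω []).1 then 1 else 0) * F (st c ω) (sh [c] ω) ∂(P0 D μ) =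
      μ.toMeasure (Set.Ioi c) * av f := by
    intro c
    rw [peel hF c (hI c)]
    · have hm1 : Measurable (fun n : ℕ => (if c < n then (1 : ℝ≥0∞) else 0)) :=
        measurable_of_countable _
      have hm2 : Measurable (fun ξ : ℕ → Fin D => f (ξ c)) :=
        (measurable_of_finite f).comp (measurable_pi_apply c)
      have h2 := lintegral_root (D := D) (μ := μ)
        (f := fun s : Lab D => (if c < s.1 then 1 else 0) * f (s.2 c))
        ((hm1.comp measurable_fst).mul (hm2.comp measurable_snd))
      refine h2.trans ?_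
      unfold nu
      rw [lintegral_prod_mul (f := fun n : ℕ => (if c < n then (1 : ℝ≥0∞) else 0))
        (g := fun ξ : ℕ → Fin D => f (ξ c)) hm1.aemeasurable
        hm2.aemeasurable, lintegral_unif]
      congr 1
      have : (fun n : ℕ => (if c < n then (1 : ℝ≥0∞) else 0)) = Set.indicator (Set.Ioi c) 1 := by
        funext n
        simp [Set.indicator_apply]
      rw [this, lintegral_indicator_one measurableSet_Ioi]
    · intro ω ω' hu
      rw [hu [] (by simp)]
  simp_rw [h1]
  rw [ENNReal.tsum_mul_right]
  congr 1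
  have h4 : ∀ c : ℕ, μ.toMeasure (Set.Ioi c) = ∑' n, (if c < n then 1 else 0) * μ n := by
    intro c
    rw [PMF.toMeasure_apply _ measurableSet_Ioi]
    refine tsum_congr fun n => ?_
    simp [Set.indicator_apply]
  simp_rw [h4]
  rw [ENNReal.tsum_comm]
  unfold mean
  refine tsum_congr fun n => ?_
  rw [ENNReal.tsum_mul_right, mul_comm]
  congr 1
  rw [tsum_eq_sum (s := Finset.range n)]
  · rw [Finset.sum_congr rfl (fun c hc => if_pos (Finset.mem_range.1 hc))]
    simp
  · intro c hc
    rw [if_neg (by simpa using hc)]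

end Pool.Agent.L7h96.BRW
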