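import Pool.Agent.L7h96.BRW.Laplace

/-!
The gain inequality: a supermartingale controls the number of visits to the large values of a
potential.
-/

set_option autoImplicit false
set_option linter.unusedSectionVars false

namespace Pool.Agent.L7h96.BRW

open MeasureTheory ProbabilityTheory
open scoped ENNReal

variable {V : Type*} {D : ℕ} [NeZero D] {nb : V → Fin D → V} {μ : PMF ℕ}

theorem Phi_mul_ge (h0 : μ 0 = 0) {c : ℝ≥0∞} (hc : 1 ≤ c) (u : ℝ≥0∞) :
    c * Phi μ u ≤ Phi μ (c * u) := by
  unfold Phi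
  rw [← ENNReal.tsum_mul_left]
  refine ENNReal.tsum_le_tsum fun k => ?_
  rcases Nat.eq_zero_or_pos k with rfl | hk
  · simp [h0]
  · rw [mul_pow, mul_left_comm]
    gcongr
    exact le_self_pow₀ hc (by omega)

theorem Phi_exp_ge {M : ℝ} (hM0 : 0 ≤ M) (hM : mean μ = ENNReal.ofReal M) {t : ℝ} (ht : 0 ≤ t) :
    ENNReal.ofReal (Real.exp (-(t * M))) ≤ Phi μ (ENNReal.ofReal (Real.exp (-t))) := by
  have hE := Real.exp_pos (-(t * M))
  have h1 : ∀ k : ℕ, Real.exp (-(t * M)) * (1 + t * M) ≤
      Real.exp (-t) ^ k + Real.exp (-(t * M)) * t * k := by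
    intro k
    have h2 := Real.add_one_le_exp (t * M - t * k)
    have h3 : Real.exp (-t) ^ k = Real.exp (-(t * M)) * Real.exp (t * M - t * k) := by
      rw [← Real.exp_nat_mul, ← Real.exp_add]
      congr 1
      ring
    rw [h3]
    nlinarith
  have h2 : ∀ k : ℕ, ENNReal.ofReal (Real.exp (-(t * M)) * (1 + t * M)) ≤
      ENNReal.ofReal (Real.exp (-t)) ^ k + ENNReal.ofReal (Real.exp (-(t * M)) * t) * k := by
    intro k
    rw [← ENNReal.ofReal_pow (Real.exp_pos _).le, ← ENNReal.ofReal_natCast k,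
      ← ENNReal.ofReal_mul (by positivity), ← ENNReal.ofReal_add (by positivity) (by positivity)]
    exact ENNReal.ofReal_le_ofReal (h1 k)
  have h3 : ENNReal.ofReal (Real.exp (-(t * M)) * (1 + t * M)) ≤
      Phi μ (ENNReal.ofReal (Real.exp (-t))) + ENNReal.ofReal (Real.exp (-(t * M)) * t) * mean μ := by
    calc ENNReal.ofReal (Real.exp (-(t * M)) * (1 + t * M))
        = ∑' k, μ k * ENNReal.ofReal (Real.exp (-(t * M)) * (1 + t * M)) := by
          rw [ENNReal.tsum_mul_right, μ.tsum_coe, one_mul]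
      _ ≤ ∑' k : ℕ, (μ k * ENNReal.ofReal (Real.exp (-t)) ^ k +
            ENNReal.ofReal (Real.exp (-(t * M)) * t) * (μ k * k)) := by
          refine ENNReal.tsum_le_tsum fun k => ?_
          calc _ ≤ μ k * (ENNReal.ofReal (Real.exp (-t)) ^ k +
                ENNReal.ofReal (Real.exp (-(t * M)) * t) * k) := mul_le_mul' le_rfl (h2 k)
            _ = _ := by ring
      _ = _ := by
          rw [ENNReal.tsum_add, ENNReal.tsum_mul_left]
          rfl
  rw [hM, ← ENNReal.ofReal_mul (by positivity)] at h3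
  have h4 : Real.exp (-(t * M)) * (1 + t * M) =
      Real.exp (-(t * M)) + Real.exp (-(t * M)) * t * M := by ring
  rw [h4, ENNReal.ofReal_add (by positivity) (by positivity)] at h3
  exact (ENNReal.add_le_add_iff_right ENNReal.ofReal_ne_top).1 h3

theorem av_ofReal {f : Fin D → ℝ} (hf : ∀ i, 0 ≤ f i) :
    av (fun i => ENNReal.ofReal (f i)) = ENNReal.ofReal ((∑ i, f i) / D) := by
  unfold av
  have hD : (0 : ℝ) < D := by
    have := NeZero.pos D
    exact_mod_cast this
  rw [← ENNReal.ofReal_sum_of_nonneg fun i _ => hf i, ENNReal.ofReal_div_of_pos hD,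
    ENNReal.ofReal_natCast]

/-- the basic one-step estimate -/
theorem one_step (h0 : μ 0 = 0) {M : ℝ} (hM0 : 0 ≤ M) (hM : mean μ = ENNReal.ofReal M)
    {a : Fin D → ℝ} (ha : ∀ i, 0 ≤ a i) {b : ℝ} (hb : M * ((∑ i, a i) / D) ≤ b) {c : ℝ}
    (hc : 1 ≤ c) (hca : c * Real.exp (-((∑ i, a i) / D)) ≤ (∑ i, Real.exp (-(a i))) / D) :
    ENNReal.ofReal c * ENNReal.ofReal (Real.exp (-b)) ≤
      Phi μ (av fun i => ENNReal.ofReal (Real.exp (-(a i)))) := by
  rw [av_ofReal fun i => (Real.exp_pos _).le]
  have hc' : (1 : ℝ≥0∞) ≤ ENNReal.ofReal c := by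
    rw [← ENNReal.ofReal_one]
    exact ENNReal.ofReal_le_ofReal hc
  have hD : (0 : ℝ) < D := by
    have := NeZero.pos D
    exact_mod_cast this
  calc ENNReal.ofReal c * ENNReal.ofReal (Real.exp (-b))
      ≤ ENNReal.ofReal c * ENNReal.ofReal (Real.exp (-(((∑ i, a i) / D) * M))) := by
        gcongr
        linarith
    _ ≤ ENNReal.ofReal c * Phi μ (ENNReal.ofReal (Real.exp (-((∑ i, a i) / D)))) := by
        gcongr
        exact Phi_exp_ge hM0 hM (div_nonneg (Finset.sum_nonneg fun i _ => ha i) hD.le)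
    _ ≤ Phi μ (ENNReal.ofReal c * ENNReal.ofReal (Real.exp (-((∑ i, a i) / D)))) :=
        Phi_mul_ge h0 hc' _
    _ ≤ _ := by
        apply Phi_mono
        rw [← ENNReal.ofReal_mul (by linarith)]
        exact ENNReal.ofReal_le_ofReal hca

/-- `e^{-η} - 1 + η` -/
noncomputable def hh (η : ℝ) : ℝ := Real.exp (-η) - 1 + η

theorem hh_pos {η : ℝ} (hη : η ≠ 0) : 0 < hh η := by
  unfold hh
  have := Real.add_one_lt_exp (x := -η) (by simpa using hη)
  linarith

theorem hh_nonneg (η : ℝ) : 0 ≤ hh η := by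
  unfold hh
  have := Real.add_one_le_exp (-η)
  linarith

theorem hh_mono {η t : ℝ} (hη : 0 ≤ η) (ht : η ≤ |t|) : hh η ≤ hh t := by
  have h1 : ∀ s, 0 ≤ s → η ≤ s → hh η ≤ hh s := by
    intro s _ hs
    unfold hh
    -- e^{-η} - e^{-s} ≤ s - η
    have h2 : Real.exp (-η) - Real.exp (-s) ≤ s - η := by
      have h3 : Real.exp (-s) = Real.exp (-η) * Real.exp (-(s - η)) := by
        rw [← Real.exp_add]
        congr 1
        ring
      rw [h3]
      have h4 := Real.add_one_le_exp (-(s - η))
      have h5 : Real.exp (-η) ≤ 1 := Real.exp_le_one_iff.2 (by linarith)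
      have h6 := Real.exp_pos (-η)
      have h7 : Real.exp (-(s - η)) ≤ 1 := Real.exp_le_one_iff.2 (by linarith)
      nlinarith
    linarith
  have h2 : ∀ s, 0 ≤ s → hh s ≤ hh (-s) := by
    intro s hs
    unfold hh
    rw [neg_neg]
    have h3 : 2 * s ≤ Real.exp s - Real.exp (-s) := by
      have := Real.self_le_sinh_iff.2 hs
      rw [Real.sinh_eq] at this
      linarith
    linarith
  rcases abs_cases t with ⟨h, h'⟩ | ⟨h, h'⟩
  · rw [h] at ht
    exact h1 t h' ht
  · rw [h] at ht
    have := h2 (-t) (by linarith)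
    rw [neg_neg] at this
    exact (h1 (-t) (by linarith) ht).trans this

theorem mean_exp_ge (a : Fin D → ℝ) :
    Real.exp (-((∑ i, a i) / D)) ≤ (∑ i, Real.exp (-(a i))) / D ∧
    ∀ η : ℝ, 0 ≤ η → (∃ i, η ≤ |a i - (∑ i, a i) / D|) →
      (1 + hh η / D) * Real.exp (-((∑ i, a i) / D)) ≤ (∑ i, Real.exp (-(a i))) / D := by
  have hD : (0 : ℝ) < D := by
    have := NeZero.pos D
    exact_mod_cast this
  set m := (∑ i, a i) / D with hm
  have hE := Real.exp_pos (-m)
  have h1 : ∀ i, Real.exp (-(a i)) = Real.exp (-m) * (1 - (a i - m) + hh (a i - m)) := by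
    intro i
    unfold hh
    have : Real.exp (-(a i)) = Real.exp (-m) * Real.exp (-(a i - m)) := by
      rw [← Real.exp_add]
      congr 1
      ring
    rw [this]
    ring
  have h2 : (∑ i, Real.exp (-(a i))) / D = Real.exp (-m) * (1 + (∑ i, hh (a i - m)) / D) := by
    simp_rw [h1]
    rw [← Finset.mul_sum, Finset.sum_add_distrib, Finset.sum_sub_distrib, Finset.sum_sub_distrib]
    have e : ∑ i, a i = m * D := by
      rw [hm]
      field_simp
    rw [e]
    simp only [Finset.sum_const, Finset.card_univ, Fintype.card_fin, nsmul_eq_mul]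
    field_simp
    ring
  have hS : 0 ≤ ∑ i, hh (a i - m) := Finset.sum_nonneg fun i _ => hh_nonneg _
  refine ⟨?_, ?_⟩
  · rw [h2]
    have : 0 ≤ (∑ i, hh (a i - m)) / D := div_nonneg hS hD.le
    nlinarith
  · rintro η hη ⟨i, hi⟩
    rw [h2, mul_comm]
    have h3 : hh η ≤ ∑ i, hh (a i - m) :=
      (hh_mono hη hi).trans (Finset.single_le_sum (f := fun i => hh (a i - m))
        (fun i _ => hh_nonneg _) (Finset.mem_univ i))
    have h4 : hh η / D ≤ (∑ i, hh (a i - m)) / D := div_le_div_of_nonneg_right h3 hD.le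
    apply mul_le_mul_of_nonneg_left _ hE.le
    linarith

section gain

variable {M q lam : ℝ} {g : V → ℝ}

/-- mean of `g` over the neighbours -/
noncomputable def Pm (nb : V → Fin D → V) (g : V → ℝ) (x : V) : ℝ := (∑ i, g (nb x i)) / D

/-- the fluctuation scale -/
noncomputable def eta (M lam : ℝ) : ℝ := lam * ((1 - 1 / M ^ 2) / 16)

/-- large fluctuation at `x` -/
def fl (nb : V → Fin D → V) (M q lam : ℝ) (g : V → ℝ) (x : V) (n : ℕ) : Prop :=
  ∃ i, eta M lam ≤ |lam * q ^ (n + 1) * g (nb x i) - lam * q ^ (n + 1) * Pm nb g x|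

theorem eta_pos (hM : 1 < M) (hl : 0 < lam) : 0 < eta M lam := by
  unfold eta
  have : 1 / M ^ 2 < 1 := by
    rw [div_lt_one (by positivity)]
    nlinarith
  have h2 : 0 < 1 - 1 / M ^ 2 := by linarith
  positivity

theorem fl_next (hR : RW nb) (hM : 1 < M) (hl : 0 < lam) (hq0 : 0 < q) (hq1 : q ≤ 1)
    (hqM : (1 + 1 / M ^ 2) / 2 ≤ q ^ 2) {L : ℕ} (hqL : 1 / 2 ≤ q ^ L)
    (hsup : ∀ x, q * M * Pm nb g x ≤ g x) {x : V} (hbig : 1 / 2 ≤ g x)
    {n : ℕ} (hn : n ≤ L) (hfl : ¬ fl nb M q lam g x n) (i : Fin D) :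
    fl nb M q lam g (nb x i) (n + 1) := by
  obtain ⟨j, hj⟩ := hR.back x i
  refine ⟨j, ?_⟩
  rw [hj]
  unfold fl at hfl
  push Not at hfl
  have h1 := (abs_lt.1 (hfl i)).2
  have hqn : 0 < q ^ n := by positivity
  have hx := hsup x
  have hv := hsup (nb x i)
  have hM0 : 0 < M := by linarith
  -- g-values
  set A := lam * q ^ n * g x with hA
  have hAx : lam * q ^ (n + 1) * Pm nb g x ≤ A / M := by
    rw [le_div_iff₀ hM0, hA, pow_succ]
    have := mul_le_mul_of_nonneg_left hx (by positivity : 0 ≤ lam * q ^ n)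
    nlinarith
  have hB : lam * q ^ (n + 1 + 1) * Pm nb g (nb x i) ≤ (lam * q ^ (n + 1) * g (nb x i)) / M := by
    rw [le_div_iff₀ hM0, pow_succ q (n + 1)]
    have := mul_le_mul_of_nonneg_left hv (by positivity : 0 ≤ lam * q ^ (n + 1))
    nlinarith
  have hC : (lam * q ^ (n + 1) * g (nb x i)) / M ≤ (A / M + eta M lam) / M := by
    apply div_le_div_of_nonneg_right _ hM0.le
    linarith
  have hqL' : 1 / 2 ≤ q ^ n := hqL.trans (pow_le_pow_of_le_one hq0.le hq1 hn)
  have hA4 : lam / 4 ≤ A := by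
    rw [hA]
    have : 1 / 4 ≤ q ^ n * g x := by nlinarith
    nlinarith
  have hE : A * ((1 + 1 / M ^ 2) / 2) ≤ lam * q ^ (n + 1 + 1) * g x := by
    have e : lam * q ^ (n + 1 + 1) * g x = A * q ^ 2 := by
      rw [hA]
      ring
    rw [e]
    exact mul_le_mul_of_nonneg_left hqM (by linarith)
  have h2 : 1 / M ^ 2 < 1 := by
    rw [div_lt_one (by positivity)]
    nlinarith
  have h3 : (A / M + eta M lam) / M = A * (1 / M ^ 2) + eta M lam / M := by
    field_simp
  have h4 : eta M lam / M ≤ eta M lam := by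
    apply div_le_self (eta_pos hM hl).le hM.le
  have h5 : 2 * eta M lam ≤ A * ((1 - 1 / M ^ 2) / 2) := by
    unfold eta
    nlinarith
  apply le_abs.2
  left
  nlinarith

/-- the gain per large value -/
noncomputable def kap (D : ℕ) (M lam : ℝ) : ℝ := hh (eta M lam) / D

theorem kap_pos (hM : 1 < M) (hl : 0 < lam) : 0 < kap D M lam := by
  have hD : (0 : ℝ) < D := by
    have := NeZero.pos D
    exact_mod_cast this
  exact div_pos (hh_pos (eta_pos hM hl).ne') hD

/-- the exponent of the gain -/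
noncomputable def gam (D : ℕ) (M lam : ℝ) : ℝ := Real.log (1 + kap D M lam) / 2

theorem gam_pos (hM : 1 < M) (hl : 0 < lam) : 0 < gam D M lam := by
  unfold gam
  have := Real.log_pos (show 1 < 1 + kap D M lam by have := kap_pos (D := D) hM hl; linarith)
  linarith

open scoped Classical in
/-- **the gain inequality** -/
theorem gain (hR : RW nb) (h0 : μ 0 = 0) (hmean : mean μ = ENNReal.ofReal M)
    (hM : 1 < M) (hl : 0 < lam) (hq0 : 0 < q) (hq1 : q ≤ 1)
    (hqM : (1 + 1 / M ^ 2) / 2 ≤ q ^ 2) {L : ℕ} (hqL : 1 / 2 ≤ q ^ L)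
    (hg : ∀ x, 0 ≤ g x) (hsup : ∀ x, q * M * Pm nb g x ≤ g x) (d : ℕ) :
    ∀ (n : ℕ), n + d = L + 1 → ∀ x,
      ENNReal.ofReal (Real.exp (-(lam * q ^ n * g x)) *
        (if fl nb M q lam g x n then Real.exp (gam D M lam) else 1)) ≤
      La μ nb 1 (fun z => if 1 / 2 ≤ g z then 1 else 0) (ENNReal.ofReal (gam D M lam)) d x := by
  have hγ := gam_pos (D := D) hM hl
  have hκ := kap_pos (D := D) hM hl
  have hM0 : 0 ≤ M := by linarith
  have hγ2 : Real.exp (gam D M lam) * Real.exp (gam D M lam) = 1 + kap D M lam := by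
    rw [← Real.exp_add]
    unfold gam
    rw [add_halves, Real.exp_log (by linarith)]
  have hb1 : 1 ≤ Real.exp (gam D M lam) := Real.one_le_exp hγ.le
  have key : ∀ (n : ℕ) (x : V),
      ENNReal.ofReal (Real.exp (-(lam * q ^ n * g x))) *
        (ENNReal.ofReal (if fl nb M q lam g x n then 1 + kap D M lam else 1)) ≤
      Phi μ (av fun i => ENNReal.ofReal (Real.exp (-(lam * q ^ (n + 1) * g (nb x i))))) := by
    intro n x
    have hsum : (∑ i, lam * q ^ (n + 1) * g (nb x i)) / D = lam * q ^ (n + 1) * Pm nb g x := by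
      rw [← Finset.mul_sum, mul_div_assoc]
      rfl
    obtain ⟨hm1, hm2⟩ := mean_exp_ge (D := D) fun i => lam * q ^ (n + 1) * g (nb x i)
    rw [mul_comm (ENNReal.ofReal (Real.exp _))]
    refine one_step h0 hM0 hmean (a := fun i => lam * q ^ (n + 1) * g (nb x i)) ?_ ?_ ?_ ?_
    · intro i
      have := hg (nb x i)
      positivity
    · rw [hsum, pow_succ]
      have := mul_le_mul_of_nonneg_left (hsup x) (by positivity : 0 ≤ lam * q ^ n)
      nlinarith
    · split_ifs
      · linarith
      · exact le_rfl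
    · split_ifs with hf
      · obtain ⟨i, hi⟩ := hf
        refine hm2 (eta M lam) (eta_pos hM hl).le ⟨i, ?_⟩
        simp only [hsum]
        exact hi
      · rw [one_mul]
        exact hm1
  have hPhi1 : ∀ u : ℝ≥0∞, u ≤ 1 → Phi μ u ≤ 1 := by
    intro u hu
    unfold Phi
    calc ∑' k, μ k * u ^ k ≤ ∑' k, μ k * 1 := by
          refine ENNReal.tsum_le_tsum fun k => mul_le_mul' le_rfl (pow_le_one₀ zero_le hu)
      _ = 1 := by simp [μ.tsum_coe]
  have hav1 : ∀ (n : ℕ) (x : V),
      (av fun i => ENNReal.ofReal (Real.exp (-(lam * q ^ (n + 1) * g (nb x i))))) ≤ 1 := by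
    intro n x
    rw [← av_const (D := D) 1]
    refine av_mono fun i => ?_
    rw [← ENNReal.ofReal_one]
    apply ENNReal.ofReal_le_ofReal
    apply Real.exp_le_one_iff.2
    have := hg (nb x i)
    have : 0 ≤ lam * q ^ (n + 1) * g (nb x i) := by positivity
    linarith
  induction d with
  | zero =>
    intro n hn x
    rw [La_zero]
    have h1 := (key n x).trans (hPhi1 _ (hav1 n x))
    rw [← ENNReal.ofReal_mul (Real.exp_pos _).le] at h1
    refine le_trans (ENNReal.ofReal_le_ofReal ?_) h1
    apply mul_le_mul_of_nonneg_left _ (Real.exp_pos _).le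
    split_ifs
    · rw [← hγ2]
      nlinarith
    · exact le_rfl
  | succ d ih =>
    intro n hn x
    have ih' := ih (n + 1) (by omega)
    rw [La_succ, mul_one]
    have hE : 0 < Real.exp (-(lam * q ^ n * g x)) := Real.exp_pos _
    -- lower bound without fluctuation at the neighbours
    have hlow : (av fun i => ENNReal.ofReal (Real.exp (-(lam * q ^ (n + 1) * g (nb x i))))) ≤
        av fun i => La μ nb 1 (fun z => if 1 / 2 ≤ g z then 1 else 0)
          (ENNReal.ofReal (gam D M lam)) d (nb x i) := by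
      refine av_mono fun i => le_trans (ENNReal.ofReal_le_ofReal ?_) (ih' (nb x i))
      have := Real.exp_pos (-(lam * q ^ (n + 1) * g (nb x i)))
      split_ifs
      · nlinarith
      · linarith
    have hee : ee (ENNReal.ofReal (gam D M lam) * (if 1 / 2 ≤ g x then 1 else 0)) =
        ENNReal.ofReal (if 1 / 2 ≤ g x then Real.exp (-(gam D M lam)) else 1) := by
      split_ifs
      · rw [mul_one, ee_ofReal hγ.le]
      · rw [mul_zero, ee_zero, ENNReal.ofReal_one]
    rw [hee]
    by_cases hf : fl nb M q lam g x n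
    · rw [if_pos hf]
      have h1 := (key n x).trans (Phi_mono hlow)
      rw [if_pos hf, ← ENNReal.ofReal_mul hE.le] at h1
      refine le_trans ?_ (mul_le_mul' (le_refl _) h1)
      rw [← ENNReal.ofReal_mul (by split_ifs <;> positivity)]
      apply ENNReal.ofReal_le_ofReal
      have h2 : Real.exp (-(gam D M lam)) ≤ (if 1 / 2 ≤ g x then Real.exp (-(gam D M lam)) else 1) := by
        split_ifs
        · exact le_rfl
        · exact Real.exp_le_one_iff.2 (by linarith)
      have h3 : Real.exp (-(gam D M lam)) * (Real.exp (gam D M lam) * Real.exp (gam D M lam)) =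
          Real.exp (gam D M lam) := by
        rw [← mul_assoc, ← Real.exp_add]
        simp
      calc Real.exp (-(lam * q ^ n * g x)) * Real.exp (gam D M lam)
          = Real.exp (-(gam D M lam)) * (Real.exp (-(lam * q ^ n * g x)) * (1 + kap D M lam)) := by
            rw [← hγ2]
            rw [mul_left_comm, h3]
        _ ≤ _ := by
            apply mul_le_mul_of_nonneg_right h2
            rw [← hγ2]
            positivity
    · rw [if_neg hf, mul_one]
      by_cases hb : 1 / 2 ≤ g x
      · rw [if_pos hb]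
        have hall := fl_next hR hM hl hq0 hq1 hqM hqL hsup hb (show n ≤ L by omega) hf
        have h1 : ENNReal.ofReal (Real.exp (gam D M lam)) *
            (av fun i => ENNReal.ofReal (Real.exp (-(lam * q ^ (n + 1) * g (nb x i))))) ≤
            av fun i => La μ nb 1 (fun z => if 1 / 2 ≤ g z then 1 else 0)
              (ENNReal.ofReal (gam D M lam)) d (nb x i) := by
          rw [← av_mul]
          refine av_mono fun i => ?_
          refine le_trans ?_ (ih' (nb x i))
          rw [if_pos (hall i), ENNReal.ofReal_mul (Real.exp_pos _).le, mul_comm]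
        have h2 := key n x
        rw [if_neg hf, ENNReal.ofReal_one, mul_one] at h2
        have hb1' : (1 : ℝ≥0∞) ≤ ENNReal.ofReal (Real.exp (gam D M lam)) := by
          rw [← ENNReal.ofReal_one]
          exact ENNReal.ofReal_le_ofReal hb1
        calc ENNReal.ofReal (Real.exp (-(lam * q ^ n * g x)))
            = ENNReal.ofReal (Real.exp (-(gam D M lam))) *
              (ENNReal.ofReal (Real.exp (gam D M lam)) *
                ENNReal.ofReal (Real.exp (-(lam * q ^ n * g x)))) := by
              rw [← mul_assoc, ← ENNReal.ofReal_mul (Real.exp_pos _).le, ← Real.exp_add]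
              simp
          _ ≤ ENNReal.ofReal (Real.exp (-(gam D M lam))) *
              (ENNReal.ofReal (Real.exp (gam D M lam)) *
                Phi μ (av fun i => ENNReal.ofReal
                  (Real.exp (-(lam * q ^ (n + 1) * g (nb x i)))))) := by gcongr
          _ ≤ ENNReal.ofReal (Real.exp (-(gam D M lam))) *
              Phi μ (ENNReal.ofReal (Real.exp (gam D M lam)) *
                (av fun i => ENNReal.ofReal
                  (Real.exp (-(lam * q ^ (n + 1) * g (nb x i)))))) := by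
              gcongr
              exact Phi_mul_ge h0 hb1' _
          _ ≤ _ := by
              gcongr
              exact Phi_mono h1
      · rw [if_neg hb, ENNReal.ofReal_one, one_mul]
        have h2 := key n x
        rw [if_neg hf, ENNReal.ofReal_one, mul_one] at h2
        exact h2.trans (Phi_mono hlow)

end gain

end Pool.Agent.L7h96.BRW
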