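import Pool.Agent.L7h96.BRW.Paths

/-!
The ends of the trace.
-/

set_option autoImplicit false
set_option linter.unusedSectionVars false

namespace Pool.Agent.L7h96.BRW

open Filter
open scoped Classical

/-- a criterion for `n` infinite components -/
theorem ends_crit {V : Type*} (H : SimpleGraph V) (K : Finset V) (n : ℕ) (W : Fin n → Set V)
    (B : Set V) (hB : B.Finite)
    (hcl : ∀ i, ∀ a ∈ W i, a ∉ K → ∀ b, b ∉ K → H.Adj a b → b ∈ W i)
    (hdis : ∀ i j, i ≠ j → ∀ a, a ∈ W i → a ∈ W j → a ∈ K)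
    (hinf : ∀ i, (W i).Infinite)
    (hconn : ∀ i, ∀ a ∈ W i, ∀ (haK : a ∈ ((K : Set V)ᶜ : Set V)), ∃ b, ∃ hb : b ∈ ((K : Set V)ᶜ : Set V),
      b ∈ B ∧ (H.induce ((K : Set V)ᶜ)).Reachable ⟨b, hb⟩ ⟨a, haK⟩) :
    ∃ f : Fin n → (H.induce ((K : Set V)ᶜ)).ConnectedComponent,
      Function.Injective f ∧ ∀ i, (f i).supp.Infinite := by
  have hreach : ∀ i, ∀ a b : ((K : Set V)ᶜ : Set V), a.1 ∈ W i →
      (H.induce ((K : Set V)ᶜ)).Reachable a b → b.1 ∈ W i := by
    intro i a b ha hab
    obtain ⟨p⟩ := hab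
    induction p with
    | nil => exact ha
    | cons hadj p ih =>
      rename_i u v w
      exact ih (hcl i u.1 ha (fun h => u.2 h) v.1 (fun h => v.2 h) hadj)
  have hex : ∀ i, ∃ b : ((K : Set V)ᶜ : Set V),
      {a : ((K : Set V)ᶜ : Set V) | a.1 ∈ W i ∧ (H.induce ((K : Set V)ᶜ)).Reachable b a}.Infinite := by
    intro i
    by_contra hno
    push Not at hno
    have hfin : (W i \ (K : Set V)).Finite := by
      have hsub : W i \ (K : Set V) ⊆ ⋃ b ∈ B, {a | ∃ (hb : b ∈ ((K : Set V)ᶜ : Set V))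
          (ha : a ∈ ((K : Set V)ᶜ : Set V)), a ∈ W i ∧
            (H.induce ((K : Set V)ᶜ)).Reachable ⟨b, hb⟩ ⟨a, ha⟩} := by
        intro a ha
        obtain ⟨b, hb, hbB, hr⟩ := hconn i a ha.1 ha.2
        exact Set.mem_biUnion hbB ⟨hb, ha.2, ha.1, hr⟩
      refine Set.Finite.subset (hB.biUnion fun b _ => ?_) hsub
      by_cases hb : b ∈ ((K : Set V)ᶜ : Set V)
      · refine ((hno ⟨b, hb⟩).image Subtype.val).subset ?_
        rintro a ⟨hb', ha, haW, hr⟩
        exact ⟨⟨a, ha⟩, ⟨haW, hr⟩, rfl⟩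
      · refine Set.finite_empty.subset ?_
        rintro a ⟨hb', -⟩
        exact absurd hb' hb
    exact (hinf i) ((hfin.union K.finite_toSet).subset fun a ha => by
      by_cases h : a ∈ (K : Set V)
      · exact Or.inr h
      · exact Or.inl ⟨ha, h⟩)
  choose b hb using hex
  refine ⟨fun i => (H.induce ((K : Set V)ᶜ)).connectedComponentMk (b i), ?_, ?_⟩
  · intro i j hij
    by_contra hne
    obtain ⟨a, haW, har⟩ := (hb i).nonempty
    obtain ⟨a', haW', har'⟩ := (hb j).nonempty
    have h1 : (H.induce ((K : Set V)ᶜ)).Reachable (b i) (b j) :=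
      SimpleGraph.ConnectedComponent.eq.1 hij
    have h2 := hreach i a a' haW (har.symm.trans (h1.trans har'))
    exact a'.2 (hdis i j hne a'.1 h2 haW')
  · intro i
    refine (hb i).mono ?_
    rintro a ⟨-, har⟩
    exact SimpleGraph.ConnectedComponent.eq.2 har.symm

variable {V : Type*} {D : ℕ} {nb : V → Fin D → V}

/-- the trace -/
def trc (nb : V → Fin D → V) (x : V) (ω : Om D) : SimpleGraph V :=
  SimpleGraph.fromEdgeSet {e | ∃ (w : List ℕ) (c : ℕ), alive (w ++ [c]) ω ∧
    e = s(pos nb x w ω, pos nb x (w ++ [c]) ω)}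

theorem finite_alive (k : ℕ) (ω : Om D) : {u : List ℕ | u.length = k ∧ alive u ω}.Finite := by
  induction k with
  | zero =>
    refine (Set.finite_singleton []).subset ?_
    rintro u ⟨hu, -⟩
    exact List.length_eq_zero_iff.1 hu
  | succ k ih =>
    refine (ih.biUnion fun v _ => (Set.finite_Iio (ω v).1).image fun c => v ++ [c]).subset ?_
    rintro u ⟨hu, ha⟩
    rcases List.eq_nil_or_concat u with rfl | ⟨v, c, rfl⟩
    · simp at hu
    · rw [List.concat_eq_append] at ha hu ⊢
      rw [alive_snoc] at ha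
      refine Set.mem_biUnion (x := v) ⟨by simpa using hu, ha.1⟩ ⟨c, ha.2, rfl⟩

theorem exists_words {ω : Om D} (hchild : ∀ w : List ℕ, 1 ≤ (ω w).1)
    (hsplit : ∀ k0 : ℕ, ∃ k ≥ k0, 2 ≤ (ω (List.replicate k 0)).1) (n : ℕ) :
    ∃ (k : ℕ) (u : Fin n → List ℕ), Function.Injective u ∧
      ∀ i, (u i).length = k ∧ alive (u i) ω := by
  have halz : ∀ (v : List ℕ) (r : ℕ), alive (List.replicate r 0) (sh v ω) := by
    intro v r
    induction r with
    | zero => trivial
    | succ r ih =>
      rw [List.replicate_succ', alive_snoc]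
      exact ⟨ih, hchild _⟩
  obtain ⟨φ, hφ, hφ2⟩ := extraction_of_frequently_atTop
    (P := fun k => 2 ≤ (ω (List.replicate k 0)).1) (by
      rw [frequently_atTop]
      exact hsplit)
  let u : Fin n → List ℕ := fun i =>
    List.replicate (φ i) 0 ++ ([1] ++ List.replicate (φ n - φ i - 1) 0)
  refine ⟨φ n, u, ?_, fun i => ?_⟩
  · intro i j hij
    have hidx : ∀ i : Fin n, (u i).idxOf 1 = φ i := by
      intro i
      show List.idxOf 1 (List.replicate (φ i) 0 ++ ([1] ++ List.replicate (φ n - φ i - 1) 0)) = φ i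
      rw [List.idxOf_append_of_notMem]
      · simp
      · simp
    have h1 := hidx i
    rw [hij, hidx j] at h1
    exact Fin.ext (hφ.injective h1.symm)
  · have hlt : φ i < φ n := hφ i.2
    refine ⟨?_, ?_⟩
    · show (List.replicate (φ i) 0 ++ ([1] ++ List.replicate (φ n - φ i - 1) 0)).length = φ n
      simp
      omega
    · show alive (List.replicate (φ i) 0 ++ ([1] ++ List.replicate (φ n - φ i - 1) 0)) ω
      rw [alive_append]
      refine ⟨?_, ?_⟩
      · have := halz [] (φ i)
        rwa [sh_nil] at this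
      · rw [alive_append]
        refine ⟨?_, ?_⟩
        · have := hφ2 i
          refine ⟨?_, trivial⟩
          show 1 < (ω (List.replicate (φ i) 0 ++ [])).1
          rw [List.append_nil]
          omega
        · rw [sh_sh]
          exact halz _ _

theorem det_ends {x : V} {ω : Om D}
    (hpair : ∀ u v : List ℕ, ¬ u <+: v → ¬ v <+: u → ∀ x y : V,
      (vis nb x (sh u ω) ∩ vis nb y (sh v ω)).Finite)
    (hchild : ∀ w : List ℕ, 1 ≤ (ω w).1)
    (hsplit : ∀ k0 : ℕ, ∃ k ≥ k0, 2 ≤ (ω (List.replicate k 0)).1)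
    (hinf : ∀ u : List ℕ, ∀ x : V, (vis nb x (sh u ω)).Infinite) (n : ℕ) :
    ∃ K : Finset V, ∃ f : Fin n → ((trc nb x ω).induce ((K : Set V)ᶜ)).ConnectedComponent,
      Function.Injective f ∧ ∀ i, (f i).supp.Infinite := by
  obtain ⟨k, u, hu, hlen⟩ := exists_words hchild hsplit n
  set S : Set (List ℕ) := {u : List ℕ | u.length = k ∧ alive u ω} with hS
  have hSfin : S.Finite := finite_alive k ω
  let Wv : List ℕ → Set V := fun v => vis nb (pos nb x v ω) (sh v ω)
  have hcomp : ∀ u v : List ℕ, u ∈ S → v ∈ S → u ≠ v → (Wv u ∩ Wv v).Finite := by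
    intro u v hu hv huv
    refine hpair u v ?_ ?_ _ _
    · intro h
      exact huv (h.eq_of_length (hu.1.trans hv.1.symm))
    · intro h
      exact huv (h.eq_of_length (hv.1.trans hu.1.symm)).symm
  let K0 : Set V := {z | hit nb x k z ω} ∪ ⋃ u ∈ S, ⋃ v ∈ S, (if u ≠ v then Wv u ∩ Wv v else ∅)
  have hK0 : K0.Finite := by
    refine (finite_hit x k ω).union (hSfin.biUnion fun u hu => hSfin.biUnion fun v hv => ?_)
    split_ifs with h
    · exact hcomp u v hu hv h
    · exact Set.finite_empty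
  have hK0mem : ∀ z, z ∈ hK0.toFinset ↔ z ∈ K0 := fun z => Set.Finite.mem_toFinset hK0
  have hKhit : ∀ w : List ℕ, w.length ≤ k → alive w ω → pos nb x w ω ∈ hK0.toFinset := by
    intro w hw ha
    rw [hK0mem]
    exact Or.inl ⟨w, hw, ha, rfl⟩
  have hKint : ∀ u v, u ∈ S → v ∈ S → u ≠ v → ∀ a, a ∈ Wv u → a ∈ Wv v → a ∈ hK0.toFinset := by
    intro u v hu hv huv a ha ha'
    rw [hK0mem]
    refine Or.inr (Set.mem_biUnion hu (Set.mem_biUnion hv ?_))
    rw [if_pos huv]
    exact ⟨ha, ha'⟩
  have hbr : ∀ w : List ℕ, k ≤ w.length → alive w ω → w.take k ∈ S ∧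
      pos nb x w ω ∈ Wv (w.take k) := by
    intro w hw ha
    have e : w.take k ++ w.drop k = w := List.take_append_drop k w
    have ha' := ha
    rw [← e, alive_append] at ha'
    refine ⟨⟨by simp [hw], ha'.1⟩, w.drop k, ha'.2, ?_⟩
    rw [← pos_append, e]
  refine ⟨hK0.toFinset, ends_crit _ _ n (fun i => Wv (u i))
    (⋃ a ∈ K0, Set.range (nb a)) (hK0.biUnion fun a _ => Set.finite_range _) ?_ ?_ ?_ ?_⟩
  · intro i a ha haK b hbK hadj
    rw [trc, SimpleGraph.fromEdgeSet_adj] at hadj
    obtain ⟨⟨w, c, hal, he⟩, -⟩ := hadj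
    have hal' := (alive_snoc w c ω).1 hal
    have hab : (a = pos nb x w ω ∧ b = pos nb x (w ++ [c]) ω) ∨
        (a = pos nb x (w ++ [c]) ω ∧ b = pos nb x w ω) := by
      rcases Sym2.eq_iff.1 he with h | h
      · exact Or.inl h
      · exact Or.inr h
    by_cases hw : w.length < k
    · exfalso
      have h1 := hKhit w hw.le hal'.1
      have h2 := hKhit (w ++ [c]) (by simp; omega) hal
      rcases hab with ⟨h, -⟩ | ⟨h, -⟩
      · exact haK (h ▸ h1)
      · exact haK (h ▸ h2)
    · push Not at hw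
      obtain ⟨hv, h1⟩ := hbr w hw hal'.1
      obtain ⟨-, h2⟩ := hbr (w ++ [c]) (by simp; omega) hal
      have e : (w ++ [c]).take k = w.take k := List.take_append_of_le_length hw
      rw [e] at h2
      have hav : a ∈ Wv (w.take k) := by
        rcases hab with ⟨h, -⟩ | ⟨h, -⟩
        · rw [h]; exact h1
        · rw [h]; exact h2
      have hbv : b ∈ Wv (w.take k) := by
        rcases hab with ⟨-, h⟩ | ⟨-, h⟩
        · rw [h]; exact h2
        · rw [h]; exact h1
      by_cases hne : u i = w.take k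
      · show b ∈ Wv (u i)
        rw [hne]
        exact hbv
      · exact absurd (hKint (u i) (w.take k) (hlen i) hv hne a ha hav) haK
  · intro i j hij a ha ha'
    exact hKint (u i) (u j) (hlen i) (hlen j) (fun h => hij (hu h)) a ha ha'
  · intro i
    exact hinf _ _
  · rintro i a ⟨w, hal, hpos⟩ haK
    induction w using List.reverseRecOn generalizing a with
    | nil =>
      exfalso
      apply haK
      rw [← hpos]
      show pos nb x (u i) ω ∈ (hK0.toFinset : Set V)
      exact hKhit (u i) (hlen i).1.le (hlen i).2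
    | append_singleton w c ih =>
      have hal' := (alive_snoc w c (sh (u i) ω)).1 hal
      rw [pos_snoc] at hpos
      set p := pos nb (pos nb x (u i) ω) w (sh (u i) ω) with hp
      by_cases hpK : p ∈ K0
      · refine ⟨a, haK, ?_, SimpleGraph.Reachable.refl _⟩
        exact Set.mem_biUnion hpK ⟨_, hpos⟩
      · have hpK' : p ∈ ((hK0.toFinset : Set V)ᶜ : Set V) := by
          intro h
          exact hpK ((hK0mem p).1 h)
        obtain ⟨b, hb, hbB, hr⟩ := ih p hal'.1 rfl hpK'
        refine ⟨b, hb, hbB, hr.trans ?_⟩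
        by_cases hpa : p = a
        · subst hpa
          exact SimpleGraph.Reachable.refl _
        · apply SimpleGraph.Adj.reachable
          show (trc nb x ω).Adj p a
          rw [trc, SimpleGraph.fromEdgeSet_adj]
          refine ⟨⟨u i ++ w, c, ?_, ?_⟩, hpa⟩
          · rw [List.append_assoc, alive_append]
            exact ⟨(hlen i).2, hal⟩
          · rw [List.append_assoc, pos_append, pos_append, pos_snoc, ← hp, hpos]

end Pool.Agent.L7h96.BRW
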