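import Pool.Agent.L7h96.BRW.Tree

/-!
Green functions of the walk.
-/

set_option autoImplicit false
set_option linter.unusedSectionVars false

namespace Pool.Agent.L7h96.BRW

open MeasureTheory ProbabilityTheory
open scoped ENNReal Classical

variable {V : Type*} {D : ℕ}

section av
variable {D : ℕ}

theorem av_mono {f g : Fin D → ℝ≥0∞} (h : ∀ i, f i ≤ g i) : av f ≤ av g := by
  unfold av
  gcongr with i
  exact h i

theorem av_add (f g : Fin D → ℝ≥0∞) : av (fun i => f i + g i) = av f + av g := by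
  unfold av
  rw [Finset.sum_add_distrib, ENNReal.add_div]

theorem av_mul (a : ℝ≥0∞) (f : Fin D → ℝ≥0∞) : av (fun i => a * f i) = a * av f := by
  unfold av
  rw [← Finset.mul_sum, mul_div_assoc]

theorem av_sum {ι : Type*} (s : Finset ι) (f : ι → Fin D → ℝ≥0∞) :
    av (fun i => ∑ j ∈ s, f j i) = ∑ j ∈ s, av (f j) := by
  unfold av
  rw [Finset.sum_comm]
  simp_rw [div_eq_mul_inv]
  rw [Finset.sum_mul]

theorem av_tsum (f : ℕ → Fin D → ℝ≥0∞) :
    av (fun i => ∑' j, f j i) = ∑' j, av (f j) := by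
  unfold av
  simp_rw [div_eq_mul_inv]
  rw [ENNReal.tsum_mul_right]
  congr 1
  rw [Summable.tsum_finsetSum]
  intro i _
  exact ENNReal.summable

theorem av_comm {E : ℕ} (f : Fin D → Fin E → ℝ≥0∞) :
    av (fun i => av fun j => f i j) = av fun j => av fun i => f i j := by
  unfold av
  simp_rw [div_eq_mul_inv, ← Finset.sum_mul]
  rw [Finset.sum_comm, mul_assoc, mul_assoc, mul_comm (E : ℝ≥0∞)⁻¹]

theorem av_const [NeZero D] (a : ℝ≥0∞) : av (fun _ : Fin D => a) = a := by
  unfold av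
  rw [Finset.sum_const, Finset.card_univ, Fintype.card_fin, nsmul_eq_mul, mul_comm]
  rw [mul_div_assoc, ENNReal.div_self (by exact_mod_cast NeZero.ne D) (ENNReal.natCast_ne_top D),
    mul_one]

theorem le_av (f : Fin D → ℝ≥0∞) (i : Fin D) : f i ≤ D * av f := by
  have : NeZero D := ⟨by have := i.2; omega⟩
  unfold av
  rw [ENNReal.mul_div_cancel (by exact_mod_cast NeZero.ne D) (ENNReal.natCast_ne_top D)]
  exact Finset.single_le_sum (fun _ _ => zero_le) (Finset.mem_univ i)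

theorem av_iSup (f : ℕ → Fin D → ℝ≥0∞) (hf : ∀ i, Monotone fun n => f n i) :
    av (fun i => ⨆ n, f n i) = ⨆ n, av (f n) := by
  unfold av
  simp_rw [div_eq_mul_inv]
  rw [ENNReal.finsetSum_iSup_of_monotone hf, ENNReal.iSup_mul]

end av

theorem tsum_zero_add (f : ℕ → ℝ≥0∞) : ∑' n, f n = f 0 + ∑' n, f (n + 1) :=
  tsum_eq_zero_add' ENNReal.summable

/-- automorphism of the walk -/
def Aut (nb : V → Fin D → V) (γ : V → V) : Prop :=
  Function.Injective γ ∧ ∀ (x : V) (f : V → ℝ≥0∞),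
    av (fun i => f (nb (γ x) i)) = av (fun i => f (γ (nb x i)))

/-- transitive reversible connected walk -/
structure RW (nb : V → Fin D → V) : Prop where
  symm : ∀ x y, (Finset.univ.filter fun i => nb x i = y).card =
    (Finset.univ.filter fun i => nb y i = x).card
  trans : ∀ x y, ∃ γ : V → V, γ x = y ∧ Aut nb γ
  conn : ∀ x y, Relation.ReflTransGen (fun a b => ∃ i, nb a i = b) x y

/-- transition probabilities -/
noncomputable def pn (nb : V → Fin D → V) : ℕ → V → V → ℝ≥0∞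
  | 0, x, y => if x = y then 1 else 0
  | n + 1, x, y => av fun i => pn nb n (nb x i) y

variable {nb : V → Fin D → V}

theorem pn_succ (n : ℕ) (x y : V) : pn nb (n + 1) x y = av fun i => pn nb n (nb x i) y := rfl

theorem pn_succ' (hR : RW nb) (n : ℕ) (x y : V) :
    pn nb (n + 1) x y = av fun i => pn nb n x (nb y i) := by
  induction n generalizing x with
  | zero =>
    unfold pn av
    congr 1
    have h := hR.symm x y
    simp only [pn]
    rw [Finset.sum_boole, Finset.sum_boole, h]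
    congr 3
    ext i
    exact eq_comm
  | succ n ih =>
    rw [pn_succ]
    simp_rw [ih]
    rw [av_comm]
    rfl

theorem pn_symm (hR : RW nb) (n : ℕ) (x y : V) : pn nb n x y = pn nb n y x := by
  induction n generalizing x y with
  | zero => simp only [pn, eq_comm]
  | succ n ih =>
    rw [pn_succ, pn_succ' hR]
    simp_rw [ih y]

theorem pn_aut {γ : V → V} (hγ : Aut nb γ) (n : ℕ) (x y : V) :
    pn nb n (γ x) (γ y) = pn nb n x y := by
  induction n generalizing x y with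
  | zero => simp only [pn, hγ.1.eq_iff]
  | succ n ih =>
    rw [pn_succ, pn_succ]
    rw [hγ.2 x fun z => pn nb n z (γ y)]
    simp_rw [ih]

/-- Green function -/
noncomputable def Gr (nb : V → Fin D → V) (r : ℝ≥0∞) (x y : V) : ℝ≥0∞ :=
  ∑' n : ℕ, r ^ n * pn nb n x y

/-- derivative of the Green function -/
noncomputable def Fr (nb : V → Fin D → V) (r : ℝ≥0∞) (x y : V) : ℝ≥0∞ :=
  ∑' n : ℕ, (n + 1) * (r ^ n * pn nb n x y)

variable {r : ℝ≥0∞}

theorem Gr_symm (hR : RW nb) (x y : V) : Gr nb r x y = Gr nb r y x := by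
  unfold Gr
  simp_rw [pn_symm hR _ x y]

theorem Gr_aut {γ : V → V} (hγ : Aut nb γ) (x y : V) : Gr nb r (γ x) (γ y) = Gr nb r x y := by
  unfold Gr
  simp_rw [pn_aut hγ]

theorem Fr_aut {γ : V → V} (hγ : Aut nb γ) (x y : V) : Fr nb r (γ x) (γ y) = Fr nb r x y := by
  unfold Fr
  simp_rw [pn_aut hγ]

theorem Gr_eq (x y : V) : Gr nb r x y = pn nb 0 x y + r * av fun i => Gr nb r (nb x i) y := by
  unfold Gr
  rw [tsum_zero_add, pow_zero, one_mul,
    av_tsum (fun n i => r ^ n * pn nb n (nb x i) y), ← ENNReal.tsum_mul_left]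
  congr 2
  funext n
  rw [av_mul, pn_succ, pow_succ', mul_assoc]

theorem Gr_ge_av (x y : V) : r * av (fun i => Gr nb r (nb x i) y) ≤ Gr nb r x y := by
  rw [Gr_eq x y]
  exact le_add_self

theorem one_le_Gr (x : V) : 1 ≤ Gr nb r x x := by
  rw [Gr_eq x x]
  refine le_trans ?_ le_self_add
  simp [pn]

theorem Gr_le_Fr (x y : V) : Gr nb r x y ≤ Fr nb r x y := by
  unfold Gr Fr
  refine ENNReal.tsum_le_tsum fun n => ?_
  calc r ^ n * pn nb n x y = 1 * (r ^ n * pn nb n x y) := by rw [one_mul]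
    _ ≤ _ := by
      gcongr
      exact le_add_self

theorem Fr_eq (hR : RW nb) (x y : V) :
    Fr nb r x y = Gr nb r x y + r * av fun i => Fr nb r x (nb y i) := by
  have h1 : Fr nb r x y = Gr nb r x y + ∑' n : ℕ, (n : ℝ≥0∞) * (r ^ n * pn nb n x y) := by
    unfold Fr Gr
    rw [← ENNReal.tsum_add]
    refine tsum_congr fun n => ?_
    rw [add_mul, one_mul, add_comm]
  rw [h1]
  congr 1
  rw [tsum_zero_add]
  unfold Fr
  rw [av_tsum (fun n i => ((n : ℝ≥0∞) + 1) * (r ^ n * pn nb n x (nb y i))),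
    ← ENNReal.tsum_mul_left, Nat.cast_zero, zero_mul, zero_add]
  refine tsum_congr fun n => ?_
  rw [av_mul, av_mul, pn_succ' hR, pow_succ', Nat.cast_succ]
  ring

/-- superharmonic functions -/
def Sup (nb : V → Fin D → V) (g : V → ℝ≥0∞) : Prop := ∀ x, av (fun i => g (nb x i)) ≤ g x

theorem Sup.step {g : V → ℝ≥0∞} (hg : Sup nb g) (x : V) (i : Fin D) : g (nb x i) ≤ D * g x :=
  (le_av (fun i => g (nb x i)) i).trans (mul_le_mul_right (hg x) _)

theorem RW.back (hR : RW nb) (x : V) (i : Fin D) : ∃ j, nb (nb x i) j = x := by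
  have h := hR.symm x (nb x i)
  have h1 : 0 < (Finset.univ.filter fun k => nb x k = nb x i).card :=
    Finset.card_pos.2 ⟨i, by simp⟩
  rw [h] at h1
  obtain ⟨j, hj⟩ := Finset.card_pos.1 h1
  exact ⟨j, (Finset.mem_filter.1 hj).2⟩

theorem Sup.step' (hR : RW nb) {g : V → ℝ≥0∞} (hg : Sup nb g) (x : V) (i : Fin D) :
    g x ≤ D * g (nb x i) := by
  obtain ⟨j, hj⟩ := hR.back x i
  have := hg.step (nb x i) j
  rwa [hj] at this

theorem harnack (hR : RW nb) (x y : V) : ∃ K : ℕ, ∀ g : V → ℝ≥0∞, Sup nb g →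
    g x ≤ (D : ℝ≥0∞) ^ K * g y := by
  have h := hR.conn x y
  induction h with
  | refl => exact ⟨0, fun g _ => by simp⟩
  | tail _ hbc ih =>
    obtain ⟨K, hK⟩ := ih
    obtain ⟨i, hi⟩ := hbc
    refine ⟨K + 1, fun g hg => ?_⟩
    refine (hK g hg).trans ?_
    rw [pow_succ, mul_assoc]
    gcongr
    rw [← hi]
    exact hg.step' hR _ i

variable {q : ℝ≥0∞}

theorem T_av (r : ℝ≥0∞) {h : V → ℝ≥0∞} {h' : Fin D → V → ℝ≥0∞}
    (hh : ∀ x, r * av (fun i => h' i x) ≤ h x) (n : ℕ) (x : V) (ω : Om D) :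
    r * av (fun i => T nb q (h' i) n x ω) ≤ T nb q h n x ω := by
  induction n generalizing x ω with
  | zero => simp [T, av]
  | succ n ih =>
    simp_rw [T_succ]
    rw [av_add, av_mul, av_sum, mul_add, ← mul_assoc, mul_comm r q, mul_assoc, Finset.mul_sum]
    gcongr with c hc
    · exact hh x
    · exact ih _ _

theorem Ti_av (r : ℝ≥0∞) {h : V → ℝ≥0∞} {h' : Fin D → V → ℝ≥0∞}
    (hh : ∀ x, r * av (fun i => h' i x) ≤ h x) (x : V) (ω : Om D) :
    r * av (fun i => Ti nb q (h' i) x ω) ≤ Ti nb q h x ω := by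
  unfold Ti
  rw [av_iSup _ fun i => T_mono x ω, ENNReal.mul_iSup]
  exact iSup_mono fun n => T_av r hh n x ω

/-- the potential of a branching random walk -/
theorem Ti_Gr_av (y : V) (ω : Om D) (z : V) :
    r * av (fun i => Ti nb q (Gr nb r (nb z i)) y ω) ≤ Ti nb q (Gr nb r z) y ω :=
  Ti_av r (fun x => Gr_ge_av z x) y ω

theorem Sup_Ti_Gr (hr : 1 ≤ r) (y : V) (ω : Om D) : Sup nb fun z => Ti nb q (Gr nb r z) y ω := by
  intro z
  refine le_trans ?_ (Ti_Gr_av y ω z)
  calc _ = 1 * av (fun i => Ti nb q (Gr nb r (nb z i)) y ω) := by rw [one_mul]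
    _ ≤ _ := by gcongr

variable [NeZero D] {μ : PMF ℕ}

theorem lintegral_T_le (hR : RW nb) (hq : q * mean μ = r) (z : V) (n : ℕ) (x : V) :
    ∫⁻ ω, T nb q (Gr nb r z) n x ω ∂(P0 D μ) ≤ Fr nb r z x := by
  induction n generalizing x with
  | zero => simp [T]
  | succ n ih =>
    rw [lintegral_T_succ, Fr_eq hR, ← mul_assoc, hq]
    gcongr
    exact av_mono fun i => ih (nb x i)

theorem lintegral_Ti_le (hR : RW nb) (hq : q * mean μ = r) (z x : V) :
    ∫⁻ ω, Ti nb q (Gr nb r z) x ω ∂(P0 D μ) ≤ Fr nb r z x := by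
  unfold Ti
  rw [lintegral_iSup (fun n => measurable_T n x) (fun n m hnm ω => T_mono x ω hnm)]
  exact iSup_le fun n => lintegral_T_le hR hq z n x

end Pool.Agent.L7h96.BRW
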