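import Pool.Agent.L7h96.BRW.Gain

/-!
Hits of a fixed finite set by a branching random walk: few hits are not large values of the
potential.
-/

set_option autoImplicit false
set_option linter.unusedSectionVars false

namespace Pool.Agent.L7h96.BRW

open MeasureTheory ProbabilityTheory
open scoped ENNReal Classical

variable {V : Type*} {D : ℕ} {nb : V → Fin D → V}

theorem measurableSet_alive (w : List ℕ) : MeasurableSet {ω : Om D | alive w ω} := by
  induction w with
  | nil => simp [alive]
  | cons c w ih =>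
    have : {ω : Om D | alive (c :: w) ω} =
        (fun ω : Om D => (ω []).1) ⁻¹' Set.Ioi c ∩ sh [c] ⁻¹' {ω : Om D | alive w ω} := rfl
    rw [this]
    exact (measurable_num measurableSet_Ioi).inter (measurable_sh [c] ih)

theorem measurableSet_pos (x : V) (w : List ℕ) (z : V) :
    MeasurableSet {ω : Om D | pos nb x w ω = z} := by
  induction w generalizing x with
  | nil =>
    by_cases h : x = z
    · simp [pos, h]
    · simp [pos, h]
  | cons c w ih =>
    have : {ω : Om D | pos nb x (c :: w) ω = z} =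
        ⋃ i : Fin D, (st c ⁻¹' {i} ∩ sh [c] ⁻¹' {ω : Om D | pos nb (nb x i) w ω = z}) := by
      ext ω
      simp [pos]
    rw [this]
    exact MeasurableSet.iUnion fun i =>
      (measurable_st c (measurableSet_singleton i)).inter (measurable_sh [c] (ih (nb x i)))

theorem congr_of_agree {l : ℕ} {ω ω' : Om D} (h : ∀ u : List ℕ, u.length < l → ω u = ω' u)
    {w : List ℕ} (hw : w.length ≤ l) (x : V) :
    (alive w ω ↔ alive w ω') ∧ pos nb x w ω = pos nb x w ω' := by
  induction w generalizing l ω ω' x with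
  | nil => simp [alive, pos]
  | cons c w ih =>
    rw [List.length_cons] at hw
    have h0 : ω [] = ω' [] := h [] (by simp; omega)
    have hst : st c ω = st c ω' := by
      unfold st
      rw [h0]
    obtain ⟨h1, h2⟩ := ih (l := l - 1) (ω := sh [c] ω) (ω' := sh [c] ω') (fun u hu => by
      apply h
      simp
      omega) (by omega) (nb x (st c ω))
    refine ⟨?_, ?_⟩
    · show (c < (ω []).1 ∧ alive w (sh [c] ω)) ↔ (c < (ω' []).1 ∧ alive w (sh [c] ω'))
      rw [h0, h1]
    · show pos nb (nb x (st c ω)) w (sh [c] ω) = pos nb (nb x (st c ω')) w (sh [c] ω')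
      rw [h2, hst]

/-- order of words: by length, then by code -/
noncomputable def key (j : List ℕ) : ℕ ×ₗ ℕ := toLex (j.length, Encodable.encode j)

theorem key_inj : Function.Injective key := by
  intro a b h
  have h1 := congrArg (fun p => (ofLex p).2) h
  exact Encodable.encode_injective h1

theorem key_lt_len {a b : List ℕ} (h : key a < key b) : a.length ≤ b.length := by
  rcases Prod.Lex.lt_iff.1 h with h | h
  · exact h.le
  · exact h.1.le

/-- `j` hits `z` -/
def at' (nb : V → Fin D → V) (y : V) (j : List ℕ) (z : V) (ω : Om D) : Prop :=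
  alive j ω ∧ pos nb y j ω = z

/-- `z` is hit before `j` -/
def hitb (nb : V → Fin D → V) (y : V) (j : List ℕ) (z : V) (ω : Om D) : Prop :=
  ∃ j', key j' < key j ∧ at' nb y j' z ω

/-- `j` is the first word hitting `z` -/
def fw (nb : V → Fin D → V) (y : V) (j : List ℕ) (z : V) (ω : Om D) : Prop :=
  at' nb y j z ω ∧ ¬ hitb nb y j z ω

/-- `z` is hit by a generation `≤ l` -/
def hit (nb : V → Fin D → V) (y : V) (l : ℕ) (z : V) (ω : Om D) : Prop :=
  ∃ j : List ℕ, j.length ≤ l ∧ at' nb y j z ω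

/-- number of vertices of `A` hit before `j` -/
noncomputable def rk (nb : V → Fin D → V) (y : V) (A : Finset V) (j : List ℕ) (ω : Om D) : ℕ :=
  (A.filter fun z => hitb nb y j z ω).card

variable {y : V} {A : Finset V}

theorem measurableSet_at (j : List ℕ) (z : V) : MeasurableSet {ω : Om D | at' nb y j z ω} :=
  (measurableSet_alive j).inter (measurableSet_pos y j z)

theorem measurableSet_hitb (j : List ℕ) (z : V) : MeasurableSet {ω : Om D | hitb nb y j z ω} := by
  have : {ω : Om D | hitb nb y j z ω} =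
      ⋃ j' : List ℕ, ⋃ _ : key j' < key j, {ω : Om D | at' nb y j' z ω} := by
    ext ω
    simp [hitb]
  rw [this]
  exact MeasurableSet.iUnion fun j' => MeasurableSet.iUnion fun _ => measurableSet_at j' z

theorem measurableSet_hit (l : ℕ) (z : V) : MeasurableSet {ω : Om D | hit nb y l z ω} := by
  have : {ω : Om D | hit nb y l z ω} =
      ⋃ j' : List ℕ, ⋃ _ : j'.length ≤ l, {ω : Om D | at' nb y j' z ω} := by
    ext ω
    simp [hit]
  rw [this]
  exact MeasurableSet.iUnion fun j' => MeasurableSet.iUnion fun _ => measurableSet_at j' z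

theorem measurableSet_fw (j : List ℕ) (z : V) : MeasurableSet {ω : Om D | fw nb y j z ω} :=
  (measurableSet_at j z).inter (measurableSet_hitb j z).compl

/-- cardinals of random finite sets are measurable -/
theorem measurable_card {p : V → Om D → Prop} (hp : ∀ z, MeasurableSet {ω | p z ω}) (A : Finset V) :
    Measurable fun ω => (A.filter fun z => p z ω).card := by
  simp_rw [Finset.card_filter]
  exact Finset.measurable_sum _ fun z _ =>
    Measurable.ite (hp z) measurable_const measurable_const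

theorem measurable_rk (j : List ℕ) : Measurable (rk nb y A j) :=
  measurable_card (p := fun z ω => hitb nb y j z ω) (measurableSet_hitb j) A

theorem at_congr {l : ℕ} {ω ω' : Om D} (h : ∀ u : List ℕ, u.length < l → ω u = ω' u)
    {w : List ℕ} (hw : w.length ≤ l) (z : V) : at' nb y w z ω ↔ at' nb y w z ω' := by
  obtain ⟨h1, h2⟩ := congr_of_agree (nb := nb) h hw y
  unfold at'
  rw [h1, h2]

theorem hitb_congr {j : List ℕ} {ω ω' : Om D}
    (h : ∀ u : List ℕ, u.length < j.length → ω u = ω' u) (z : V) :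
    hitb nb y j z ω ↔ hitb nb y j z ω' := by
  unfold hitb
  constructor
  · rintro ⟨j', h1, h2⟩
    exact ⟨j', h1, (at_congr h (key_lt_len h1) z).1 h2⟩
  · rintro ⟨j', h1, h2⟩
    exact ⟨j', h1, (at_congr h (key_lt_len h1) z).2 h2⟩

theorem fw_congr {j : List ℕ} {ω ω' : Om D}
    (h : ∀ u : List ℕ, u.length < j.length → ω u = ω' u) (z : V) :
    fw nb y j z ω ↔ fw nb y j z ω' := by
  unfold fw
  rw [at_congr h le_rfl z, hitb_congr h z]

theorem rk_congr {j : List ℕ} {ω ω' : Om D}
    (h : ∀ u : List ℕ, u.length < j.length → ω u = ω' u) : rk nb y A j ω = rk nb y A j ω' := by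
  unfold rk
  congr 1
  exact Finset.filter_congr fun z _ => hitb_congr h z

theorem fw_unique {j j' : List ℕ} {z : V} {ω : Om D} (h : fw nb y j z ω) (h' : fw nb y j' z ω) :
    j = j' := by
  apply key_inj
  rcases lt_trichotomy (key j) (key j') with hlt | heq | hlt
  · exact absurd ⟨j, hlt, h.1⟩ h'.2
  · exact heq
  · exact absurd ⟨j', hlt, h'.1⟩ h.2

theorem exists_fw {j : List ℕ} {z : V} {ω : Om D} (h : at' nb y j z ω) :
    ∃ j', key j' ≤ key j ∧ fw nb y j' z ω := by
  let S : Set (ℕ ×ₗ ℕ) := {k | ∃ j', key j' = k ∧ at' nb y j' z ω}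
  have hS : S.Nonempty := ⟨key j, j, rfl, h⟩
  have hwf : WellFounded ((· < ·) : (ℕ ×ₗ ℕ) → (ℕ ×ₗ ℕ) → Prop) := wellFounded_lt
  obtain ⟨j', hj', hat⟩ := hwf.min_mem S hS
  refine ⟨j', ?_, hat, ?_⟩
  · rw [hj']
    exact not_lt.1 (hwf.not_lt_min S ⟨j, rfl, h⟩)
  · rintro ⟨j'', hlt, hat''⟩
    rw [hj'] at hlt
    exact hwf.not_lt_min S ⟨j'', rfl, hat''⟩ hlt

/-- the vertices of `A` among the first `m` ones hit, at generations `≤ L` -/
noncomputable def Rs (nb : V → Fin D → V) (y : V) (A : Finset V) (m L : ℕ) (ω : Om D) : Finset V :=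
  A.filter fun z => ∃ j : List ℕ, j.length ≤ L ∧ fw nb y j z ω ∧ rk nb y A j ω < m

theorem card_Rs_le (m L : ℕ) (ω : Om D) : (Rs nb y A m L ω).card ≤ m := by
  by_cases hne : (Rs nb y A m L ω).Nonempty
  · have hch : ∀ z ∈ Rs nb y A m L ω, ∃ j : List ℕ, j.length ≤ L ∧ fw nb y j z ω ∧
        rk nb y A j ω < m := fun z hz => (Finset.mem_filter.1 hz).2
    choose! J hJ using hch
    obtain ⟨z, hz, hmax⟩ := Finset.exists_max_image (Rs nb y A m L ω) (fun z => key (J z)) hne
    have hsub : (Rs nb y A m L ω).erase z ⊆ A.filter fun z' => hitb nb y (J z) z' ω := by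
      intro z' hz'
      obtain ⟨hne', hz'⟩ := Finset.mem_erase.1 hz'
      refine Finset.mem_filter.2 ⟨(Finset.mem_filter.1 hz').1, J z', ?_, (hJ z' hz').2.1.1⟩
      refine lt_of_le_of_ne (hmax z' hz') fun heq => hne' ?_
      have e := key_inj heq
      have h1 := (hJ z' hz').2.1.1.2
      have h2 := (hJ z hz).2.1.1.2
      rw [← h1, ← h2, e]
    have h1 := Finset.card_le_card hsub
    rw [Finset.card_erase_of_mem hz] at h1
    have h2 : rk nb y A (J z) ω < m := (hJ z hz).2.2
    unfold rk at h2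
    omega
  · rw [Finset.not_nonempty_iff_eq_empty.1 hne]
    simp

theorem le_card_Rs (m L : ℕ) (ω : Om D)
    (h : m ≤ (A.filter fun z => hit nb y L z ω).card) : m ≤ (Rs nb y A m L ω).card := by
  by_contra hlt
  push Not at hlt
  set S := A.filter fun z => hit nb y L z ω with hS
  have hne : (S \ Rs nb y A m L ω).Nonempty := by
    rw [Finset.nonempty_iff_ne_empty]
    intro he
    have := Finset.card_le_card (Finset.sdiff_eq_empty_iff_subset.1 he)
    omega
  have hch : ∀ z ∈ S, ∃ j : List ℕ, j.length ≤ L ∧ fw nb y j z ω := by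
    intro z hz
    obtain ⟨j, hj, hat⟩ := (Finset.mem_filter.1 hz).2
    obtain ⟨j', h1, h2⟩ := exists_fw hat
    refine ⟨j', ?_, h2⟩
    rcases h1.lt_or_eq with h1 | h1
    · exact (key_lt_len h1).trans hj
    · rw [key_inj h1]
      exact hj
  choose! J hJ using hch
  obtain ⟨z, hz, hmin⟩ := Finset.exists_min_image (S \ Rs nb y A m L ω) (fun z => key (J z)) hne
  obtain ⟨hzS, hzR⟩ := Finset.mem_sdiff.1 hz
  apply hzR
  refine Finset.mem_filter.2 ⟨(Finset.mem_filter.1 hzS).1, J z, (hJ z hzS).1, (hJ z hzS).2, ?_⟩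
  refine lt_of_le_of_lt (Finset.card_le_card ?_) hlt
  intro z' hz'
  obtain ⟨hzA, j', hlt', hat'⟩ := Finset.mem_filter.1 hz'
  have hzS' : z' ∈ S :=
    Finset.mem_filter.2 ⟨hzA, j', (key_lt_len hlt').trans (hJ z hzS).1, hat'⟩
  by_contra hzR'
  have h1 := hmin z' (Finset.mem_sdiff.2 ⟨hzS', hzR'⟩)
  have h2 : key (J z') ≤ key j' := by
    by_contra h3
    exact (hJ z' hzS').2.2 ⟨j', not_le.1 h3, hat'⟩
  exact absurd (h1.trans h2) (not_le.2 hlt')

variable [NeZero D] {μ : PMF ℕ} {q r θ ε : ℝ≥0∞}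

/-- the bad event -/
def bz (nb : V → Fin D → V) (q r θ : ℝ≥0∞) (z : V) (ω : Om D) : Prop :=
  θ * Ti nb q (Gr nb r z) z ω < 1

theorem measurableSet_bz (z : V) : MeasurableSet {ω : Om D | bz nb q r θ z ω} :=
  measurableSet_lt ((measurable_Ti z).const_mul θ) measurable_const

/-- weights -/
noncomputable def Xw (nb : V → Fin D → V) (y : V) (A : Finset V) (m L : ℕ) (j : List ℕ) (z : V)
    (ω : Om D) : ℝ≥0∞ :=
  if j.length ≤ L ∧ fw nb y j z ω ∧ rk nb y A j ω < m then 1 else 0

theorem measurable_Xw (m L : ℕ) (j : List ℕ) (z : V) : Measurable (Xw nb y A m L j z) := by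
  unfold Xw
  refine Measurable.ite ?_ measurable_const measurable_const
  by_cases hj : j.length ≤ L
  · simp only [hj, true_and]
    exact (measurableSet_fw j z).inter (measurable_rk j (measurableSet_Iio (a := m)))
  · simp [hj]

theorem Xw_congr (m L : ℕ) {j : List ℕ} {ω ω' : Om D}
    (h : ∀ u : List ℕ, u.length < j.length → ω u = ω' u) (z : V) :
    Xw nb y A m L j z ω = Xw nb y A m L j z ω' := by
  unfold Xw
  rw [fw_congr h z, rk_congr h]

theorem tsum_Xw_le (m L : ℕ) (z : V) (ω : Om D) :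
    ∑' j, Xw nb y A m L j z ω ≤
      if ∃ j : List ℕ, j.length ≤ L ∧ fw nb y j z ω ∧ rk nb y A j ω < m then 1 else 0 := by
  split_ifs with h
  · obtain ⟨j, hj⟩ := h
    rw [tsum_eq_single j]
    · unfold Xw
      split_ifs
      exact le_rfl
    · intro j' hj'
      unfold Xw
      rw [if_neg]
      rintro ⟨-, h2, -⟩
      exact hj' (fw_unique h2 hj.2.1)
  · push Not at h
    rw [ENNReal.tsum_eq_zero.2]
    intro j
    unfold Xw
    rw [if_neg]
    rintro ⟨h1, h2, h3⟩
    exact absurd (h j h1 h2) (not_le.2 h3)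

theorem sum_Xw_le (m L : ℕ) (ω : Om D) : ∑ z ∈ A, ∑' j, Xw nb y A m L j z ω ≤ m := by
  calc ∑ z ∈ A, ∑' j, Xw nb y A m L j z ω
      ≤ ∑ z ∈ A, (if ∃ j : List ℕ, j.length ≤ L ∧ fw nb y j z ω ∧ rk nb y A j ω < m
          then (1 : ℝ≥0∞) else 0) := Finset.sum_le_sum fun z _ => tsum_Xw_le m L z ω
    _ = ((Rs nb y A m L ω).card : ℝ≥0∞) := by
        rw [Finset.sum_boole]
        rfl
    _ ≤ m := by exact_mod_cast card_Rs_le m L ω

theorem lintegral_bad (hε : ∀ z, ell μ nb q r θ z ≤ ε) (m L : ℕ) :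
    ∫⁻ ω, ∑ z ∈ A, ∑' j, Xw nb y A m L j z ω * (if bz nb q r θ z (sh j ω) then 1 else 0)
      ∂(P0 D μ) ≤ 3 * ε * m := by
  have hm1 : ∀ j z, Measurable fun ω : Om D => Xw nb y A m L j z ω *
      (if bz nb q r θ z (sh j ω) then (1 : ℝ≥0∞) else 0) := fun j z =>
    (measurable_Xw m L j z).mul (Measurable.ite (measurable_sh j (measurableSet_bz z))
      measurable_const measurable_const)
  rw [lintegral_finsetSum _ fun z _ => Measurable.tsum fun j => hm1 j z]
  simp_rw [fun z => lintegral_tsum (μ := P0 D μ) (f := fun (j : List ℕ) (ω : Om D) =>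
    Xw nb y A m L j z ω * (if bz nb q r θ z (sh j ω) then (1 : ℝ≥0∞) else 0))
    fun j => (hm1 j z).aemeasurable]
  have h1 : ∀ j z, ∫⁻ ω, Xw nb y A m L j z ω * (if bz nb q r θ z (sh j ω) then 1 else 0)
      ∂(P0 D μ) ≤ 3 * ε * ∫⁻ ω, Xw nb y A m L j z ω ∂(P0 D μ) := by
    intro j z
    rw [resample (μ := μ) j (Ψ := fun ω b => Xw nb y A m L j z ω *
      (if bz nb q r θ z b then 1 else 0))]
    · have h2 : ∀ ω, ∫⁻ b, Xw nb y A m L j z ω * (if bz nb q r θ z b then 1 else 0) ∂(P0 D μ) ≤
          3 * ε * Xw nb y A m L j z ω := by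
        intro ω
        rw [lintegral_const_mul _ (Measurable.ite (measurableSet_bz z)
          measurable_const measurable_const), mul_comm (3 * ε)]
        gcongr
        have h3 : ∫⁻ b, (if bz nb q r θ z b then (1 : ℝ≥0∞) else 0) ∂(P0 D μ) =
            P0 D μ {b | bz nb q r θ z b} := by
          rw [← lintegral_indicator_one (measurableSet_bz z)]
          refine lintegral_congr fun b => ?_
          simp [Set.indicator_apply]
        rw [h3]
        refine (prob_small_le θ z).trans ?_
        gcongr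
        exact hε z
      refine (lintegral_mono h2).trans ?_
      rw [lintegral_const_mul _ (measurable_Xw m L j z)]
    · exact ((measurable_Xw m L j z).comp measurable_fst).mul
        (Measurable.ite (measurable_snd (measurableSet_bz z)) measurable_const measurable_const)
    · intro ω ω' b hu
      rw [Xw_congr m L (fun u hu' => hu u fun hp => ?_) z]
      exact absurd hp.length_le (not_le.2 hu')
  calc _ ≤ ∑ z ∈ A, ∑' j, 3 * ε * ∫⁻ ω, Xw nb y A m L j z ω ∂(P0 D μ) :=
        Finset.sum_le_sum fun z _ => ENNReal.tsum_le_tsum fun j => h1 j z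
    _ = 3 * ε * ∫⁻ ω, ∑ z ∈ A, ∑' j, Xw nb y A m L j z ω ∂(P0 D μ) := by
        rw [lintegral_finsetSum _ fun z _ => Measurable.tsum fun j =>
          measurable_Xw m L j z, Finset.mul_sum]
        refine Finset.sum_congr rfl fun z _ => ?_
        rw [lintegral_tsum fun j => (measurable_Xw m L j z).aemeasurable, ENNReal.tsum_mul_left]
    _ ≤ 3 * ε * ∫⁻ _, (m : ℝ≥0∞) ∂(P0 D μ) := by
        gcongr with ω
        exact sum_Xw_le m L ω
    _ = 3 * ε * m := by simp

/-- large values of the potential -/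
def big (nb : V → Fin D → V) (q r θ : ℝ≥0∞) (y : V) (z : V) (ω : Om D) : Prop :=
  2⁻¹ ≤ θ * Ti nb q (Gr nb r z) y ω

theorem measurableSet_big (z : V) : MeasurableSet {ω : Om D | big nb q r θ y z ω} :=
  measurableSet_le measurable_const ((measurable_Ti y).const_mul θ)

theorem bad_of_not_big (hq1 : q ≤ 1) {L : ℕ} (hqL : 2⁻¹ ≤ q ^ L) {j : List ℕ} (hj : j.length ≤ L)
    {z : V} {ω : Om D} (hat : at' nb y j z ω) (hb : ¬ big nb q r θ y z ω) :
    bz nb q r θ z (sh j ω) := by
  unfold bz
  by_contra h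
  push Not at h
  apply hb
  unfold big
  have h1 := Ti_ge (nb := nb) (q := q) (h := Gr nb r z) j y ω hat.1
  rw [hat.2] at h1
  have h2 : 2⁻¹ ≤ q ^ j.length := hqL.trans (pow_le_pow_of_le_one zero_le hq1 hj)
  calc (2⁻¹ : ℝ≥0∞) = 2⁻¹ * 1 := by rw [mul_one]
    _ ≤ q ^ j.length * (θ * Ti nb q (Gr nb r z) z (sh j ω)) := by gcongr
    _ = θ * (q ^ j.length * Ti nb q (Gr nb r z) z (sh j ω)) := by ring
    _ ≤ _ := by gcongr

/-- **few hits outside of the large values** -/
theorem hits (hε : ∀ z, ell μ nb q r θ z ≤ ε) (hq1 : q ≤ 1) {L : ℕ} (hqL : 2⁻¹ ≤ q ^ L)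
    (A : Finset V) (y : V) (n0 : ℕ) :
    P0 D μ {ω | 2 * n0 ≤ (A.filter fun z => hit nb y L z ω).card ∧
      (A.filter fun z => big nb q r θ y z ω).card < n0} ≤ 6 * ε := by
  rcases Nat.eq_zero_or_pos n0 with rfl | hn0
  · simp
  set E := {ω | 2 * n0 ≤ (A.filter fun z => hit nb y L z ω).card ∧
      (A.filter fun z => big nb q r θ y z ω).card < n0} with hE
  have hEm : MeasurableSet E :=
    (measurable_card (p := fun z ω => hit nb y L z ω) (fun z => measurableSet_hit L z) A
      (measurableSet_Ici (a := 2 * n0))).inter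
    (measurable_card (p := fun z ω => big nb q r θ y z ω) (fun z => measurableSet_big z) A
      (measurableSet_Iio (a := n0)))
  have h1 : (n0 : ℝ≥0∞) * P0 D μ E ≤ 3 * ε * (2 * n0 : ℕ) := by
    refine le_trans ?_ (lintegral_bad (A := A) (y := y) hε (2 * n0) L)
    rw [← lintegral_indicator_one hEm, ← lintegral_const_mul _ (measurable_one.indicator hEm)]
    refine lintegral_mono fun ω => ?_
    by_cases hω : ω ∈ E
    · rw [Set.indicator_of_mem hω, Pi.one_apply, mul_one]
      obtain ⟨h2, h3⟩ := hω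
      have h4 := le_card_Rs (2 * n0) L ω h2
      set R := Rs nb y A (2 * n0) L ω with hR
      have h5 : n0 ≤ (R.filter fun z => ¬ big nb q r θ y z ω).card := by
        have h6 := Finset.card_filter_add_card_filter_not (s := R)
          (fun z => big nb q r θ y z ω)
        have h7 : (R.filter fun z => big nb q r θ y z ω).card ≤
            (A.filter fun z => big nb q r θ y z ω).card :=
          Finset.card_le_card (Finset.filter_subset_filter _ (Finset.filter_subset _ _))
        omega
      calc (n0 : ℝ≥0∞) ≤ (R.filter fun z => ¬ big nb q r θ y z ω).card := by exact_mod_cast h5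
        _ = ∑ z ∈ R.filter (fun z => ¬ big nb q r θ y z ω), (1 : ℝ≥0∞) := by simp
        _ ≤ ∑ z ∈ R.filter (fun z => ¬ big nb q r θ y z ω), ∑' j,
            Xw nb y A (2 * n0) L j z ω * (if bz nb q r θ z (sh j ω) then 1 else 0) := by
            refine Finset.sum_le_sum fun z hz => ?_
            obtain ⟨hzR, hzb⟩ := Finset.mem_filter.1 hz
            obtain ⟨j, hj1, hj2, hj3⟩ := (Finset.mem_filter.1 hzR).2
            refine le_trans ?_ (ENNReal.le_tsum j)
            have hb := bad_of_not_big hq1 hqL hj1 hj2.1 hzb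
            unfold Xw
            rw [if_pos ⟨hj1, hj2, hj3⟩, if_pos hb, mul_one]
        _ ≤ _ := by
            refine Finset.sum_le_sum_of_subset ?_
            exact (Finset.filter_subset _ _).trans (Finset.filter_subset _ _)
    · rw [Set.indicator_of_notMem hω, mul_zero]
      exact zero_le
  have hn : (n0 : ℝ≥0∞) ≠ 0 := by
    have : n0 ≠ 0 := by omega
    exact_mod_cast this
  have h2 : (n0 : ℝ≥0∞) * P0 D μ E ≤ n0 * (6 * ε) := by
    refine h1.trans (le_of_eq ?_)
    push_cast
    ring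
  exact (ENNReal.mul_le_mul_iff_right hn (ENNReal.natCast_ne_top n0)).1 h2

end Pool.Agent.L7h96.BRW
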