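import Pool.Agent.L7h96.BRW.Green

/-!
The Laplace transform of the self-potential of a branching random walk: scale selection.
-/

set_option autoImplicit false
set_option linter.unusedSectionVars false

namespace Pool.Agent.L7h96.BRW

open MeasureTheory ProbabilityTheory
open scoped ENNReal

variable {V : Type*} {D : ℕ} [NeZero D] {nb : V → Fin D → V} {μ : PMF ℕ} {q r : ℝ≥0∞}

theorem La_aut {γ : V → V} (hγ : Aut nb γ) (h : V → ℝ≥0∞) (θ : ℝ≥0∞) (n : ℕ) (x : V) :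
    La μ nb q h θ n (γ x) = La μ nb q (fun z => h (γ z)) θ n x := by
  induction n generalizing θ x with
  | zero => rw [La_zero, La_zero]
  | succ n ih =>
    rw [La_succ, La_succ, hγ.2 x fun z => La μ nb q h (θ * q) n z]
    simp_rw [ih]

theorem Li_aut {γ : V → V} (hγ : Aut nb γ) (h : V → ℝ≥0∞) (θ : ℝ≥0∞) (x : V) :
    Li μ nb q h θ (γ x) = Li μ nb q (fun z => h (γ z)) θ x := by
  rw [Li_eq_iInf, Li_eq_iInf]
  simp_rw [La_aut hγ]

/-- Laplace transform of the self-potential -/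
noncomputable def ell (μ : PMF ℕ) (nb : V → Fin D → V) (q r θ : ℝ≥0∞) (x : V) : ℝ≥0∞ :=
  Li μ nb q (Gr nb r x) θ x

theorem ell_const (hR : RW nb) (θ : ℝ≥0∞) (x y : V) : ell μ nb q r θ x = ell μ nb q r θ y := by
  obtain ⟨γ, rfl, hγ⟩ := hR.trans x y
  unfold ell
  rw [Li_aut hγ]
  simp_rw [Gr_aut hγ]

theorem Phi_mono {u v : ℝ≥0∞} (h : u ≤ v) : Phi μ u ≤ Phi μ v := by
  unfold Phi
  gcongr

/-- the scaling constant -/
noncomputable def cc (D : ℕ) : ℝ≥0∞ := (2 * D : ℝ≥0∞)⁻¹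

theorem cc_ne_zero : cc D ≠ 0 := by
  unfold cc
  rw [Ne, ENNReal.inv_eq_zero]
  exact ENNReal.mul_ne_top (by simp) (ENNReal.natCast_ne_top D)

theorem cc_ne_top : cc D ≠ ∞ := by
  unfold cc
  rw [Ne, ENNReal.inv_eq_top]
  have : (D : ℝ≥0∞) ≠ 0 := by exact_mod_cast NeZero.ne D
  simp [this]

theorem cc_le : cc D ≤ 2⁻¹ := by
  unfold cc
  rw [ENNReal.inv_le_inv]
  have : (1 : ℝ≥0∞) ≤ D := by
    have : 1 ≤ D := Nat.one_le_iff_ne_zero.2 (NeZero.ne D)
    exact_mod_cast this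
  calc (2 : ℝ≥0∞) = 2 * 1 := by rw [mul_one]
    _ ≤ _ := by gcongr

theorem Ti_self_ge (hr : 1 ≤ r) (hq : 2⁻¹ ≤ q) (x : V) (ω : Om D) :
    cc D * ∑ c ∈ Finset.range (ω []).1,
      Ti nb q (Gr nb r (nb x (st c ω))) (nb x (st c ω)) (sh [c] ω) ≤ Ti nb q (Gr nb r x) x ω := by
  rw [Ti_eq x ω]
  refine le_trans ?_ le_add_self
  rw [Finset.mul_sum, Finset.mul_sum]
  refine Finset.sum_le_sum fun c _ => ?_
  have h1 := (Sup_Ti_Gr (nb := nb) (q := q) hr (nb x (st c ω)) (sh [c] ω)).step x (st c ω)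
  have hD : (D : ℝ≥0∞) ≠ 0 := by exact_mod_cast NeZero.ne D
  calc cc D * Ti nb q (Gr nb r (nb x (st c ω))) (nb x (st c ω)) (sh [c] ω)
      ≤ cc D * (D * Ti nb q (Gr nb r x) (nb x (st c ω)) (sh [c] ω)) := by gcongr
    _ = 2⁻¹ * Ti nb q (Gr nb r x) (nb x (st c ω)) (sh [c] ω) := by
      rw [← mul_assoc]
      congr 1
      unfold cc
      rw [ENNReal.mul_inv (Or.inl (by simp)) (Or.inl (by simp)), mul_assoc,
        ENNReal.inv_mul_cancel hD (ENNReal.natCast_ne_top D), mul_one]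
    _ ≤ _ := by gcongr

theorem ell_le_Phi (hR : RW nb) (hr : 1 ≤ r) (hq : 2⁻¹ ≤ q) (θ : ℝ≥0∞) (x : V) :
    ell μ nb q r θ x ≤ Phi μ (ell μ nb q r (cc D * θ) x) := by
  have h1 : ell μ nb q r θ x ≤ ∫⁻ ω, ∏ c ∈ Finset.range (ω []).1,
      (fun (i : Fin D) (ω' : Om D) =>
        ee (cc D * θ * Ti nb q (Gr nb r (nb x i)) (nb x i) ω')) (st c ω) (sh [c] ω)
      ∂(P0 D μ) := by
    unfold ell Li
    refine lintegral_mono fun ω => ?_
    show ee (θ * Ti nb q (Gr nb r x) x ω) ≤ ∏ c ∈ Finset.range (ω []).1,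
        ee (cc D * θ * Ti nb q (Gr nb r (nb x (st c ω))) (nb x (st c ω)) (sh [c] ω))
    rw [← ee_sum]
    apply ee_anti
    calc _ = θ * (cc D * ∑ c ∈ Finset.range (ω []).1,
          Ti nb q (Gr nb r (nb x (st c ω))) (nb x (st c ω)) (sh [c] ω)) := by
          rw [Finset.mul_sum, Finset.mul_sum]
          refine Finset.sum_congr rfl fun c _ => ?_
          ring
      _ ≤ _ := by
          gcongr
          exact Ti_self_ge hr hq x ω
  refine h1.trans ?_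
  refine (branch_prod (μ := μ) (F := fun (i : Fin D) (ω' : Om D) =>
        ee (cc D * θ * Ti nb q (Gr nb r (nb x i)) (nb x i) ω')) ?_).le.trans ?_
  rotate_left
  · refine Phi_mono ?_
    have : ∀ i : Fin D, ∫⁻ ω', ee (cc D * θ * Ti nb q (Gr nb r (nb x i)) (nb x i) ω') ∂(P0 D μ) =
        ell μ nb q r (cc D * θ) x := by
      intro i
      exact ell_const (μ := μ) (q := q) (r := r) hR (cc D * θ) (nb x i) x
    simp_rw [this]
    rw [av_const]
  · intro i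
    exact measurable_ee.comp ((measurable_Ti _).const_mul _)

theorem ell_iter (hR : RW nb) (hr : 1 ≤ r) (hq : 2⁻¹ ≤ q) (θ : ℝ≥0∞) (x : V) (k : ℕ) :
    ell μ nb q r θ x ≤ (Phi μ)^[k] (ell μ nb q r (cc D ^ k * θ) x) := by
  induction k generalizing θ with
  | zero => simp
  | succ k ih =>
    refine (ih θ).trans ?_
    rw [Function.iterate_succ, Function.comp_apply]
    have hm : Monotone ((Phi μ)^[k]) := Monotone.iterate (fun _ _ h => Phi_mono h) k
    apply hm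
    refine (ell_le_Phi hR hr hq _ x).trans ?_
    rw [← mul_assoc, ← pow_succ']

theorem ell_one_le (x : V) : ell μ nb q r 1 x ≤ ENNReal.ofReal (Real.exp (-1)) := by
  unfold ell Li
  calc _ ≤ ∫⁻ _, ENNReal.ofReal (Real.exp (-1)) ∂(P0 D μ) := by
        refine lintegral_mono fun ω => ?_
        rw [← ee_ofReal zero_le_one, ENNReal.ofReal_one]
        apply ee_anti
        rw [one_mul, Ti_eq]
        exact (one_le_Gr x).trans le_self_add
    _ = _ := by simp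

theorem one_le_ell (hR : RW nb) (hq : q * mean μ = r) (θ : ℝ≥0∞) (x : V) :
    1 ≤ ell μ nb q r θ x + θ * Fr nb r x x := by
  calc (1 : ℝ≥0∞) = ∫⁻ _, 1 ∂(P0 D μ) := by simp
    _ ≤ ∫⁻ ω, (ee (θ * Ti nb q (Gr nb r x) x ω) + θ * Ti nb q (Gr nb r x) x ω) ∂(P0 D μ) :=
        lintegral_mono fun ω => one_le_ee_add _
    _ = ell μ nb q r θ x + θ * ∫⁻ ω, Ti nb q (Gr nb r x) x ω ∂(P0 D μ) := by
        rw [lintegral_add_right _ ((measurable_Ti x).const_mul θ),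
          lintegral_const_mul _ (measurable_Ti x)]
        rfl
    _ ≤ _ := by
        gcongr
        exact lintegral_Ti_le hR hq x x

theorem Phi_le (h0 : μ 0 = 0) {u : ℝ≥0∞} (hu : u ≤ 1) : Phi μ u ≤ u * (μ 1 + (1 - μ 1) * u) := by
  have h1 : ∑' k, μ (k + 2) = 1 - μ 1 := by
    have h := μ.tsum_coe
    rw [tsum_zero_add, h0, zero_add, tsum_zero_add] at h
    rw [← h]
    exact (ENNReal.add_sub_cancel_left (ne_top_of_le_ne_top ENNReal.one_ne_top
      (μ.coe_le_one 1))).symm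
  unfold Phi
  rw [tsum_zero_add, h0, zero_mul, zero_add, tsum_zero_add, ← h1, ← ENNReal.tsum_mul_right, mul_add,
    ← ENNReal.tsum_mul_left]
  simp only [zero_add, pow_one]
  refine add_le_add (mul_comm _ _).le (ENNReal.tsum_le_tsum fun k => ?_)
  calc μ (k + 1 + 1) * u ^ (k + 1 + 1) ≤ μ (k + 2) * u ^ 2 :=
        mul_le_mul' le_rfl (pow_le_pow_of_le_one zero_le hu (by omega))
    _ = u * (μ (k + 2) * u) := by ring

theorem Phi_iter_le (h0 : μ 0 = 0) {ε u : ℝ≥0∞} (hu : u ≤ 1 - ε) (k : ℕ) :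
    (Phi μ)^[k] u ≤ (μ 1 + (1 - μ 1) * (1 - ε)) ^ k * u := by
  have hτ : μ 1 + (1 - μ 1) * (1 - ε) ≤ 1 := by
    calc _ ≤ μ 1 + (1 - μ 1) * 1 := by gcongr; exact tsub_le_self
      _ = 1 := by rw [mul_one, add_tsub_cancel_of_le (μ.coe_le_one 1)]
  induction k with
  | zero => simp
  | succ k ih =>
    rw [Function.iterate_succ_apply']
    set v := (Phi μ)^[k] u
    have hv : v ≤ 1 - ε := ih.trans ((mul_le_of_le_one_left zero_le
      (pow_le_one₀ zero_le hτ)).trans hu)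
    refine (Phi_le h0 (hv.trans tsub_le_self)).trans ?_
    calc v * (μ 1 + (1 - μ 1) * v) ≤
          (μ 1 + (1 - μ 1) * (1 - ε)) ^ k * u * (μ 1 + (1 - μ 1) * (1 - ε)) := by gcongr
      _ = _ := by ring

theorem tau_lt_one (h1 : μ 1 < 1) {ε : ℝ≥0∞} (hε : ε ≠ 0) :
    μ 1 + (1 - μ 1) * (1 - ε) < 1 := by
  have hne : 1 - μ 1 ≠ 0 := (tsub_pos_of_lt h1).ne'
  have hnt : 1 - μ 1 ≠ ∞ := ne_top_of_le_ne_top ENNReal.one_ne_top tsub_le_self
  have h2 : (1 - μ 1) * (1 - ε) < (1 - μ 1) * 1 := by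
    rw [ENNReal.mul_lt_mul_iff_right hne hnt]
    exact ENNReal.sub_lt_self ENNReal.one_ne_top one_ne_zero hε
  calc _ < μ 1 + (1 - μ 1) * 1 :=
        ENNReal.add_lt_add_left (ne_top_of_le_ne_top ENNReal.one_ne_top (μ.coe_le_one 1)) h2
    _ = 1 := by rw [mul_one, add_tsub_cancel_of_le (μ.coe_le_one 1)]

/-- **scale selection** -/
theorem exists_scale (hR : RW nb) (h0 : μ 0 = 0) (h1 : μ 1 < 1) {ε : ℝ≥0∞} (hε : ε ≠ 0)
    (hε2 : ε ≤ 2⁻¹) (x : V) : ∃ k : ℕ, ∀ q r : ℝ≥0∞, 1 ≤ r → 2⁻¹ ≤ q → q * mean μ = r →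
      Fr nb r x x ≠ ∞ → ∃ θ : ℝ≥0∞, θ ≠ 0 ∧ θ ≠ ∞ ∧ ell μ nb q r θ x ≤ ε ∧
        1 - ε ≤ ell μ nb q r (cc D ^ (k + 1) * θ) x := by
  obtain ⟨k, hk⟩ : ∃ k : ℕ, (μ 1 + (1 - μ 1) * (1 - ε)) ^ k ≤ ε := by
    have ht := ENNReal.tendsto_pow_atTop_nhds_zero_of_lt_one (tau_lt_one h1 hε)
    exact ((ENNReal.tendsto_nhds_zero.1 ht) ε (pos_iff_ne_zero.2 hε)).exists
  refine ⟨k, fun q r hr hq hqr hF => ?_⟩
  have hex : ∃ j : ℕ, 1 - ε ≤ ell μ nb q r (cc D ^ j) x := by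
    have ht := ENNReal.tendsto_pow_atTop_nhds_zero_of_lt_one
      (lt_of_le_of_lt (cc_le (D := D)) (by simp))
    have ht2 : Filter.Tendsto (fun j : ℕ => cc D ^ j * Fr nb r x x) Filter.atTop (nhds 0) := by
      have := ENNReal.Tendsto.mul_const ht (Or.inr hF)
      simpa using this
    obtain ⟨j, hj⟩ := ((ENNReal.tendsto_nhds_zero.1 ht2) ε (pos_iff_ne_zero.2 hε)).exists
    refine ⟨j, ?_⟩
    rw [tsub_le_iff_right]
    refine (one_le_ell (μ := μ) hR hqr (cc D ^ j) x).trans ?_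
    gcongr
  classical
  let j := Nat.find hex
  have hj : 1 - ε ≤ ell μ nb q r (cc D ^ j) x := Nat.find_spec hex
  have hj0 : j ≠ 0 := by
    intro h
    rw [h, pow_zero] at hj
    have h3 := hj.trans (ell_one_le x)
    have h4 : (2⁻¹ : ℝ≥0∞) ≤ 1 - ε := by
      calc (2⁻¹ : ℝ≥0∞) = 1 - 2⁻¹ := by
            rw [ENNReal.one_sub_inv_two]
        _ ≤ _ := by gcongr
    have h5 := h4.trans h3
    have h6 : ENNReal.ofReal (Real.exp (-1)) < 2⁻¹ := by
      have e : (2⁻¹ : ℝ≥0∞) = ENNReal.ofReal (2⁻¹) := by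
        rw [ENNReal.ofReal_inv_of_pos (by norm_num)]
        norm_num
      rw [e, ENNReal.ofReal_lt_ofReal_iff (by norm_num), Real.exp_neg]
      apply inv_strictAnti₀ (by norm_num)
      have := Real.exp_one_gt_d9
      linarith
    exact absurd h5 (not_le.2 h6)
  obtain ⟨i, hi⟩ : ∃ i, j = i + 1 := ⟨j - 1, by omega⟩
  have hmin : ell μ nb q r (cc D ^ i) x < 1 - ε := by
    have : i < Nat.find hex := by
      change i < j
      omega
    exact not_le.1 (Nat.find_min hex this)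
  have hck : cc D ^ k ≠ 0 := pow_ne_zero _ cc_ne_zero
  have hck' : cc D ^ k ≠ ∞ := ENNReal.pow_ne_top cc_ne_top
  have hci : cc D ^ i ≠ 0 := pow_ne_zero _ cc_ne_zero
  have hci' : cc D ^ i ≠ ∞ := ENNReal.pow_ne_top cc_ne_top
  have e1 : cc D ^ k * (cc D ^ i / cc D ^ k) = cc D ^ i := ENNReal.mul_div_cancel hck hck'
  refine ⟨cc D ^ i / cc D ^ k, ?_, ?_, ?_, ?_⟩
  · exact ENNReal.div_ne_zero.2 ⟨hci, hck'⟩
  · exact ENNReal.div_ne_top hci' hck
  · refine (ell_iter hR hr hq _ x k).trans ?_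
    rw [e1]
    refine (Phi_iter_le h0 hmin.le k).trans ?_
    refine le_trans ?_ hk
    exact mul_le_of_le_one_right zero_le (hmin.le.trans tsub_le_self)
  · rw [pow_succ', mul_assoc, e1, ← pow_succ', ← hi]
    exact hj

theorem prob_small_le (θ : ℝ≥0∞) (x : V) :
    P0 D μ {ω | θ * Ti nb q (Gr nb r x) x ω < 1} ≤ 3 * ell μ nb q r θ x := by
  have hm : MeasurableSet {ω : Om D | θ * Ti nb q (Gr nb r x) x ω < 1} :=
    measurableSet_lt ((measurable_Ti x).const_mul θ) measurable_const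
  rw [← lintegral_indicator_one hm]
  unfold ell Li
  rw [← lintegral_const_mul (3 : ℝ≥0∞) (f := fun ω => ee (θ * Ti nb q (Gr nb r x) x ω))
    (measurable_ee.comp ((measurable_Ti x).const_mul θ))]
  refine lintegral_mono fun ω => ?_
  by_cases hω : θ * Ti nb q (Gr nb r x) x ω < 1
  · rw [Set.indicator_of_mem (by exact hω), Pi.one_apply]
    have h1 : ENNReal.ofReal (Real.exp (-1)) ≤ ee (θ * Ti nb q (Gr nb r x) x ω) := by
      rw [← ee_ofReal zero_le_one, ENNReal.ofReal_one]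
      exact ee_anti hω.le
    calc (1 : ℝ≥0∞) ≤ 3 * ENNReal.ofReal (Real.exp (-1)) := by
          have e : (3 : ℝ≥0∞) = ENNReal.ofReal 3 := by norm_num
          rw [e, ← ENNReal.ofReal_mul (by norm_num), ← ENNReal.ofReal_one]
          apply ENNReal.ofReal_le_ofReal
          rw [Real.exp_neg, ← div_eq_mul_inv, le_div_iff₀ (Real.exp_pos 1)]
          have := Real.exp_one_lt_d9
          linarith
      _ ≤ _ := by
          gcongr
  · rw [Set.indicator_of_notMem (by exact hω)]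
    exact zero_le

end Pool.Agent.L7h96.BRW
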