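import Pool.Agent.L7h96.BRW.Hits

/-!
Two independent critical branching random walks have finitely many vertices in common.
-/

set_option autoImplicit false
set_option linter.unusedSectionVars false

namespace Pool.Agent.L7h96.BRW

open MeasureTheory ProbabilityTheory Filter
open scoped ENNReal Classical Topology

variable {V : Type*} {D : ℕ} {nb : V → Fin D → V}

theorem hit_zero {x z : V} {ω : Om D} : hit nb x 0 z ω ↔ x = z := by
  constructor
  · rintro ⟨j, hj, -, h⟩
    have : j = [] := List.length_eq_zero_iff.1 (by omega)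
    subst this
    exact h
  · rintro rfl
    exact ⟨[], le_rfl, trivial, rfl⟩

theorem hit_succ {x z : V} {l : ℕ} {ω : Om D} : hit nb x (l + 1) z ω ↔
    x = z ∨ ∃ c < (ω []).1, hit nb (nb x (st c ω)) l z (sh [c] ω) := by
  constructor
  · rintro ⟨j, hj, ha, h⟩
    cases j with
    | nil => exact Or.inl h
    | cons c j =>
      right
      refine ⟨c, ha.1, j, ?_, ha.2, h⟩
      simpa using hj
  · rintro (rfl | ⟨c, hc, j, hj, ha, h⟩)
    · exact ⟨[], by simp, trivial, rfl⟩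
    · exact ⟨c :: j, by simpa using hj, ⟨hc, ha⟩, h⟩

theorem finite_hit (x : V) (l : ℕ) (ω : Om D) : {z | hit nb x l z ω}.Finite := by
  induction l generalizing x ω with
  | zero =>
    refine (Set.finite_singleton x).subset ?_
    intro z hz
    exact (hit_zero.1 hz).symm
  | succ l ih =>
    refine ((Set.finite_singleton x).union (Set.Finite.biUnion (Set.finite_Iio (ω []).1)
      fun c _ => ih (nb x (st c ω)) (sh [c] ω))).subset ?_
    intro z hz
    rcases hit_succ.1 hz with h | ⟨c, hc, h⟩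
    · exact Or.inl h.symm
    · exact Or.inr (Set.mem_biUnion (show c ∈ Set.Iio (ω []).1 from hc) h)

/-- counting distinct vertices by particles -/
theorem card_le_T {h : V → ℝ≥0∞} (F : Finset V) (hF : ∀ z ∈ F, 1 ≤ h z) (l : ℕ) (x : V) (ω : Om D)
    (hhit : ∀ z ∈ F, hit nb x l z ω) : (F.card : ℝ≥0∞) ≤ T nb 1 h (l + 1) x ω := by
  induction l generalizing x ω F with
  | zero =>
    have hsub : F ⊆ {x} := by
      intro z hz
      rw [Finset.mem_singleton]
      exact (hit_zero.1 (hhit z hz)).symm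
    rcases Finset.subset_singleton_iff.1 hsub with h1 | h1
    · rw [h1]
      simp
    · rw [T_succ]
      refine le_trans ?_ le_self_add
      rw [h1, Finset.card_singleton, Nat.cast_one]
      exact hF x (by rw [h1]; exact Finset.mem_singleton_self x)
  | succ l ih =>
    rw [T_succ, one_mul]
    have h1 : (F.card : ℝ≥0∞) ≤ ((F.filter fun z => z = x).card : ℝ≥0∞) +
        ∑ c ∈ Finset.range (ω []).1,
          ((F.filter fun z => hit nb (nb x (st c ω)) l z (sh [c] ω)).card : ℝ≥0∞) := by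
      have hsub : F ⊆ (F.filter fun z => z = x) ∪ (Finset.range (ω []).1).biUnion
          fun c => F.filter fun z => hit nb (nb x (st c ω)) l z (sh [c] ω) := by
        intro z hz
        rcases hit_succ.1 (hhit z hz) with h | ⟨c, hc, h⟩
        · exact Finset.mem_union_left _ (Finset.mem_filter.2 ⟨hz, h.symm⟩)
        · exact Finset.mem_union_right _ (Finset.mem_biUnion.2
            ⟨c, Finset.mem_range.2 hc, Finset.mem_filter.2 ⟨hz, h⟩⟩)
      have h2 := (Finset.card_le_card hsub).trans ((Finset.card_union_le _ _).trans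
        (Nat.add_le_add_left Finset.card_biUnion_le _))
      exact_mod_cast h2
    refine h1.trans (add_le_add ?_ (Finset.sum_le_sum fun c _ => ?_))
    · by_cases hx : x ∈ F
      · have : (F.filter fun z => z = x) = {x} := by
          ext z
          simp only [Finset.mem_filter, Finset.mem_singleton]
          constructor
          · exact fun h => h.2
          · rintro rfl
            exact ⟨hx, rfl⟩
        rw [this, Finset.card_singleton, Nat.cast_one]
        exact hF x hx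
      · have : (F.filter fun z => z = x) = ∅ := by
          ext z
          simp only [Finset.mem_filter, Finset.notMem_empty, iff_false]
          rintro ⟨h, rfl⟩
          exact hx h
        rw [this]
        simp
    · exact ih _ (fun z hz => hF z (Finset.mem_filter.1 hz).1) _ _
        fun z hz => (Finset.mem_filter.1 hz).2

variable [NeZero D] {μ : PMF ℕ}

/-- the number of visits to large values is controlled by the Laplace functional -/
theorem prob_count_le {h : V → ℝ≥0∞} {γ : ℝ≥0∞} {n0 : ℕ} (hγ : ee (γ * n0) ≤ 2⁻¹) (n : ℕ) (x : V) :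
    2⁻¹ * P0 D μ {ω | (n0 : ℝ≥0∞) ≤ T nb 1 h n x ω} + La μ nb 1 h γ n x ≤ 1 := by
  have hm : MeasurableSet {ω : Om D | (n0 : ℝ≥0∞) ≤ T nb 1 h n x ω} :=
    measurableSet_le measurable_const (measurable_T n x)
  rw [← lintegral_indicator_one hm, ← lintegral_const_mul _ (measurable_one.indicator hm)]
  unfold La
  rw [← lintegral_add_left ((measurable_one.indicator hm).const_mul _)]
  calc _ ≤ ∫⁻ _, 1 ∂(P0 D μ) := by
        refine lintegral_mono fun ω => ?_
        by_cases hω : (n0 : ℝ≥0∞) ≤ T nb 1 h n x ω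
        · have hω' : ω ∈ {ω : Om D | (n0 : ℝ≥0∞) ≤ T nb 1 h n x ω} := hω
          simp only [Set.indicator_of_mem hω', Pi.one_apply, mul_one]
          calc (2⁻¹ : ℝ≥0∞) + ee (γ * T nb 1 h n x ω) ≤ 2⁻¹ + 2⁻¹ := by
                gcongr
                refine le_trans (ee_anti ?_) hγ
                gcongr
            _ = 1 := ENNReal.inv_two_add_inv_two
        · have hω' : ω ∉ {ω : Om D | (n0 : ℝ≥0∞) ≤ T nb 1 h n x ω} := hω
          simp only [Set.indicator_of_notMem hω', mul_zero, zero_add]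
          exact ee_le_one _
    _ = 1 := by simp

/-- the estimate for a fixed environment -/
theorem fixed_env (hR : RW nb) (h0 : μ 0 = 0) {M : ℝ} (hmean : mean μ = ENNReal.ofReal M)
    (hM : 1 < M) {lam : ℝ} (hl : 0 < lam) {q : ℝ} (hq0 : 0 < q) (hq1 : q ≤ 1)
    (hqM : (1 + 1 / M ^ 2) / 2 ≤ q ^ 2) (hr1 : 1 ≤ q * M) {L : ℕ} (hqL : 1 / 2 ≤ q ^ L)
    {n0 : ℕ} (hγ : ee (ENNReal.ofReal (gam D M lam) * n0) ≤ 2⁻¹) {θ : ℝ≥0∞}
    (x y : V) {s : ℝ≥0∞}
    (hs : ∀ g : V → ℝ≥0∞, Sup nb g → ENNReal.ofReal lam * g x ≤ s * g y) (ω2 : Om D) :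
    2⁻¹ * P0 D μ {ω1 | ∃ F : Finset V, F.card = n0 ∧ ∀ z ∈ F, hit nb x L z ω1 ∧
        big nb (ENNReal.ofReal q) (ENNReal.ofReal (q * M)) θ y z ω2} +
      ee (s * (θ * Ti nb (ENNReal.ofReal q) (Gr nb (ENNReal.ofReal (q * M)) y) y ω2)) ≤ 1 := by
  set qE := ENNReal.ofReal q with hqE
  set rE := ENNReal.ofReal (q * M) with hrE
  have hrE1 : 1 ≤ rE := by
    rw [hrE, ← ENNReal.ofReal_one]
    exact ENNReal.ofReal_le_ofReal hr1
  have hlE : ENNReal.ofReal lam ≠ 0 := by
    rw [Ne, ENNReal.ofReal_eq_zero]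
    exact not_le.2 hl
  have hD0 : (D : ℝ≥0∞) ≠ 0 := by exact_mod_cast NeZero.ne D
  have hDr : (0 : ℝ) < D := by
    have := NeZero.pos D
    exact_mod_cast this
  set gE : V → ℝ≥0∞ := fun z => θ * Ti nb qE (Gr nb rE z) y ω2 with hgE
  have hav : ∀ z, rE * av (fun i => gE (nb z i)) ≤ gE z := by
    intro z
    rw [hgE]
    simp only
    rw [av_mul, mul_left_comm]
    gcongr
    exact Ti_Gr_av y ω2 z
  have hSup : Sup nb gE := by
    intro z
    refine le_trans ?_ (hav z)
    calc _ = 1 * av (fun i => gE (nb z i)) := by rw [one_mul]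
      _ ≤ _ := by gcongr
  by_cases hfin : gE y = ∞
  · -- infinite potential: trivial estimate
    by_cases hs0 : s = 0
    · -- then g x = 0, impossible unless ...
      have h1 := hs gE hSup
      rw [hs0, zero_mul] at h1
      have h2 : gE x = 0 := by
        have := le_antisymm h1 zero_le
        rcases mul_eq_zero.1 this with h | h
        · exact absurd h hlE
        · exact h
      obtain ⟨K, hK⟩ := harnack hR y x
      have h3 := hK gE hSup
      rw [h2, mul_zero, hfin] at h3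
      exact absurd h3 (by simp)
    · have h1 : s * gE y = ∞ := by
        rw [hfin]
        exact ENNReal.mul_top hs0
      have h2 : ee (s * (θ * Ti nb qE (Gr nb rE y) y ω2)) = 0 := by
        have : s * (θ * Ti nb qE (Gr nb rE y) y ω2) = ∞ := h1
        rw [this, ee_top]
      rw [h2, add_zero]
      calc _ ≤ (2⁻¹ : ℝ≥0∞) * 1 := by
            gcongr
            exact prob_le_one
        _ ≤ 1 := by
          rw [mul_one]
          exact ENNReal.inv_le_one.2 (by norm_num)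
  · have hfin' : ∀ z, gE z ≠ ∞ := by
      intro z
      obtain ⟨K, hK⟩ := harnack hR z y
      exact ne_top_of_le_ne_top (ENNReal.mul_ne_top
        (ENNReal.pow_ne_top (ENNReal.natCast_ne_top D)) hfin) (hK gE hSup)
    set g : V → ℝ := fun z => (gE z).toReal with hg
    have hgz : ∀ z, ENNReal.ofReal (g z) = gE z := fun z => ENNReal.ofReal_toReal (hfin' z)
    have hg0 : ∀ z, 0 ≤ g z := fun z => ENNReal.toReal_nonneg
    have hsup : ∀ z, q * M * Pm nb g z ≤ g z := by
      intro z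
      have h1 := hav z
      have h2 : av (fun i => gE (nb z i)) = ENNReal.ofReal (Pm nb g z) := by
        unfold Pm
        rw [← av_ofReal fun i => hg0 (nb z i)]
        simp_rw [hgz]
      rw [h2, ← hgz z, hrE, ← ENNReal.ofReal_mul (by linarith)] at h1
      exact (ENNReal.ofReal_le_ofReal_iff (hg0 z)).1 h1
    have hgain := gain hR h0 hmean hM hl hq0 hq1 hqM hqL hg0 hsup (L + 1) 0 (by omega) x
    have hgain' : ENNReal.ofReal (Real.exp (-(lam * g x))) ≤
        La μ nb 1 (fun z => if 1 / 2 ≤ g z then 1 else 0) (ENNReal.ofReal (gam D M lam))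
          (L + 1) x := by
      refine le_trans (ENNReal.ofReal_le_ofReal ?_) hgain
      rw [pow_zero, mul_one]
      have hE := Real.exp_pos (-(lam * g x))
      have hb1 : 1 ≤ Real.exp (gam D M lam) := Real.one_le_exp (gam_pos hM hl).le
      split_ifs
      · nlinarith
      · linarith
    have hcount := prob_count_le (μ := μ) (nb := nb)
      (h := fun z => if 1 / 2 ≤ g z then 1 else 0) hγ (L + 1) x
    refine le_trans (add_le_add ?_ ?_) hcount
    · refine mul_le_mul' le_rfl (measure_mono ?_)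
      rintro ω1 ⟨F, hFc, hF⟩
      show (n0 : ℝ≥0∞) ≤ _
      rw [← hFc]
      refine card_le_T F (fun z hz => ?_) L x ω1 fun z hz => (hF z hz).1
      have h1 := (hF z hz).2
      unfold big at h1
      have h2 : 2⁻¹ ≤ gE z := h1
      rw [if_pos]
      rw [← hgz z] at h2
      have e : (2⁻¹ : ℝ≥0∞) = ENNReal.ofReal (1 / 2) := by
        rw [one_div, ENNReal.ofReal_inv_of_pos (by norm_num)]
        norm_num
      rw [e] at h2
      exact (ENNReal.ofReal_le_ofReal_iff (hg0 z)).1 h2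
    · refine le_trans ?_ hgain'
      rw [← ee_ofReal (mul_nonneg hl.le (hg0 x)), ENNReal.ofReal_mul hl.le, hgz]
      exact ee_anti (hs gE hSup)

/-- choice of `q` -/
theorem exists_q {M : ℝ} (hM : 1 < M) (L : ℕ) : ∃ q : ℝ, 0 < q ∧ q < 1 ∧
    (1 + 1 / M ^ 2) / 2 ≤ q ^ 2 ∧ 1 ≤ q * M ∧ 1 / 2 ≤ q ^ L ∧ 1 / 2 ≤ q := by
  have h2 : 1 / M ^ 2 < 1 := by
    rw [div_lt_one (by positivity)]
    nlinarith
  have t1 : Tendsto (fun q : ℝ => q ^ 2) (𝓝[<] 1) (𝓝 (1 ^ 2)) :=
    ((continuous_pow 2).tendsto 1).mono_left nhdsWithin_le_nhds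
  have t2 : Tendsto (fun q : ℝ => q * M) (𝓝[<] 1) (𝓝 (1 * M)) :=
    ((continuous_id.mul continuous_const).tendsto 1).mono_left nhdsWithin_le_nhds
  have t3 : Tendsto (fun q : ℝ => q ^ L) (𝓝[<] 1) (𝓝 (1 ^ L)) :=
    ((continuous_pow L).tendsto 1).mono_left nhdsWithin_le_nhds
  have t4 : Tendsto (fun q : ℝ => q) (𝓝[<] 1) (𝓝 1) :=
    (continuous_id.tendsto 1).mono_left nhdsWithin_le_nhds
  have e1 := t1.eventually (lt_mem_nhds (show (1 + 1 / M ^ 2) / 2 < 1 ^ 2 by rw [one_pow]; linarith))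
  have e2 := t2.eventually (lt_mem_nhds (show 1 < 1 * M by linarith))
  have e3 := t3.eventually (lt_mem_nhds (show 1 / 2 < (1 : ℝ) ^ L by norm_num))
  have e4 := t4.eventually (lt_mem_nhds (show (1 : ℝ) / 2 < 1 by norm_num))
  have e5 : ∀ᶠ q : ℝ in 𝓝[<] 1, q < 1 := eventually_mem_nhdsWithin
  obtain ⟨q, h1, h2, h3, h4, h5⟩ := (e1.and (e2.and (e3.and (e4.and e5)))).exists
  exact ⟨q, by linarith, h5, h1.le, h2.le, h3.le, h4.le⟩

/-- the event that there are `n` common vertices up to generation `L` -/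
def common (nb : V → Fin D → V) (x y : V) (n L : ℕ) : Set (Om D × Om D) :=
  {p | ∃ F : Finset V, F.card = n ∧ ∀ z ∈ F, hit nb x L z p.1 ∧ hit nb y L z p.2}

theorem measurableSet_common [Countable V] (x y : V) (n L : ℕ) :
    MeasurableSet (common nb x y n L) := by
  have : common nb x y n L = ⋃ F : Finset V, ⋃ _ : F.card = n, ⋂ z ∈ F,
      ({ω : Om D | hit nb x L z ω} ×ˢ {ω : Om D | hit nb y L z ω}) := by
    ext p
    simp [common]
  rw [this]
  exact MeasurableSet.iUnion fun F => MeasurableSet.iUnion fun _ =>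
    Finset.measurableSet_biInter F fun z _ => (measurableSet_hit L z).prod (measurableSet_hit L z)

theorem prob_common (hR : RW nb) [Countable V] (h0 : μ 0 = 0) {M : ℝ}
    (hmean : mean μ = ENNReal.ofReal M) (hM : 1 < M) (h1 : μ 1 < 1)
    (hF : ∀ r : ℝ≥0∞, r < mean μ → ∀ x, Fr nb r x x ≠ ∞) {ε : ℝ≥0∞} (hε : ε ≠ 0)
    (hε2 : ε ≤ 2⁻¹) (x y : V) : ∃ n : ℕ, ∀ L : ℕ,
      ((P0 D μ).prod (P0 D μ)) (common nb x y n L) ≤ 8 * ε := by
  obtain ⟨k, hk⟩ := exists_scale hR h0 h1 hε hε2 y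
  obtain ⟨K, hK⟩ := harnack hR x y
  have hD0 : (D : ℝ≥0∞) ≠ 0 := by exact_mod_cast NeZero.ne D
  set lamE : ℝ≥0∞ := cc D ^ (k + 1) / (D : ℝ≥0∞) ^ K with hlamE
  have hlE0 : lamE ≠ 0 := ENNReal.div_ne_zero.2
    ⟨pow_ne_zero _ cc_ne_zero, ENNReal.pow_ne_top (ENNReal.natCast_ne_top D)⟩
  have hlEt : lamE ≠ ∞ := ENNReal.div_ne_top (ENNReal.pow_ne_top cc_ne_top) (pow_ne_zero _ hD0)
  set lam := lamE.toReal with hlam
  have hl : 0 < lam := ENNReal.toReal_pos hlE0 hlEt
  have hlofr : ENNReal.ofReal lam = lamE := ENNReal.ofReal_toReal hlEt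
  have hs : ∀ g : V → ℝ≥0∞, Sup nb g → ENNReal.ofReal lam * g x ≤ cc D ^ (k + 1) * g y := by
    intro g hg
    rw [hlofr]
    calc lamE * g x ≤ lamE * ((D : ℝ≥0∞) ^ K * g y) := by gcongr; exact hK g hg
      _ = cc D ^ (k + 1) * g y := by
        rw [← mul_assoc, hlamE, ENNReal.div_mul_cancel (pow_ne_zero _ hD0)
          (ENNReal.pow_ne_top (ENNReal.natCast_ne_top D))]
  have hγ := gam_pos (D := D) hM hl
  obtain ⟨n0, hn0, hn0γ⟩ : ∃ n0 : ℕ, 0 < n0 ∧ ee (ENNReal.ofReal (gam D M lam) * n0) ≤ 2⁻¹ := by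
    obtain ⟨n, hn⟩ := exists_nat_ge (1 / gam D M lam)
    refine ⟨n + 1, by omega, ?_⟩
    have h2 : 1 ≤ gam D M lam * ((n + 1 : ℕ) : ℝ) := by
      rw [div_le_iff₀ hγ] at hn
      push_cast
      nlinarith
    rw [← ENNReal.ofReal_natCast, ← ENNReal.ofReal_mul hγ.le, ee_ofReal (by linarith)]
    have e : (2⁻¹ : ℝ≥0∞) = ENNReal.ofReal (2⁻¹) := by
      rw [ENNReal.ofReal_inv_of_pos (by norm_num)]
      norm_num
    rw [e]
    apply ENNReal.ofReal_le_ofReal
    calc Real.exp (-(gam D M lam * ((n + 1 : ℕ) : ℝ))) ≤ Real.exp (-1) :=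
          Real.exp_le_exp.2 (by linarith)
      _ ≤ 2⁻¹ := by
        rw [Real.exp_neg]
        apply inv_anti₀ (by norm_num)
        have := Real.exp_one_gt_d9
        linarith
  refine ⟨2 * n0, fun L => ?_⟩
  obtain ⟨q, hq0, hq1, hqM, hr1, hqL, hq2⟩ := exists_q hM L
  set qE := ENNReal.ofReal q with hqE
  set rE := ENNReal.ofReal (q * M) with hrE
  have hqr : qE * mean μ = rE := by
    rw [hmean, hqE, hrE, ENNReal.ofReal_mul hq0.le]
  have hrlt : rE < mean μ := by
    rw [hmean, hrE]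
    apply (ENNReal.ofReal_lt_ofReal_iff (by linarith)).2
    nlinarith
  have e2 : (2⁻¹ : ℝ≥0∞) = ENNReal.ofReal (1 / 2) := by
    rw [one_div, ENNReal.ofReal_inv_of_pos (by norm_num)]
    norm_num
  have hrE1 : 1 ≤ rE := by
    rw [hrE, ← ENNReal.ofReal_one]
    exact ENNReal.ofReal_le_ofReal hr1
  have hqE2 : 2⁻¹ ≤ qE := by
    rw [e2]
    exact ENNReal.ofReal_le_ofReal hq2
  have hqE1 : qE ≤ 1 := by
    rw [hqE, ← ENNReal.ofReal_one]
    exact ENNReal.ofReal_le_ofReal hq1.le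
  have hqEL : 2⁻¹ ≤ qE ^ L := by
    rw [e2, hqE, ← ENNReal.ofReal_pow hq0.le]
    exact ENNReal.ofReal_le_ofReal hqL
  obtain ⟨θ, hθ0, hθt, hθ1, hθ2⟩ := hk qE rE hrE1 hqE2 hqr (hF rE hrlt y)
  have hell : ∀ z, ell μ nb qE rE θ z ≤ ε := fun z => by
    rw [ell_const hR θ z y]
    exact hθ1
  -- the two events
  set B1 : Set (Om D × Om D) := {p | ∃ F : Finset V, F.card = n0 ∧ ∀ z ∈ F,
    hit nb x L z p.1 ∧ big nb qE rE θ y z p.2} with hB1
  have hB1m : MeasurableSet B1 := by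
    have : B1 = ⋃ F : Finset V, ⋃ _ : F.card = n0, ⋂ z ∈ F,
        ({ω : Om D | hit nb x L z ω} ×ˢ {ω : Om D | big nb qE rE θ y z ω}) := by
      ext p
      simp [hB1]
    rw [this]
    exact MeasurableSet.iUnion fun F => MeasurableSet.iUnion fun _ =>
      Finset.measurableSet_biInter F fun z _ => (measurableSet_hit L z).prod (measurableSet_big z)
  have hP1 : ((P0 D μ).prod (P0 D μ)) B1 ≤ 2 * ε := by
    rw [Measure.prod_apply_symm hB1m]
    have h3 : ∀ ω2 : Om D, 2⁻¹ * P0 D μ ((fun ω1 => (ω1, ω2)) ⁻¹' B1) +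
        ee (cc D ^ (k + 1) * (θ * Ti nb qE (Gr nb rE y) y ω2)) ≤ 1 := fun ω2 =>
      fixed_env hR h0 hmean hM hl hq0 hq1.le hqM hr1 hqL hn0γ x y hs ω2
    have hme : Measurable fun ω2 : Om D =>
        ee (cc D ^ (k + 1) * (θ * Ti nb qE (Gr nb rE y) y ω2)) :=
      measurable_ee.comp (((measurable_Ti y).const_mul θ).const_mul _)
    have h4 : 2⁻¹ * ∫⁻ ω2, P0 D μ ((fun ω1 => (ω1, ω2)) ⁻¹' B1) ∂(P0 D μ) +
        ell μ nb qE rE (cc D ^ (k + 1) * θ) y ≤ 1 := by
      calc _ = ∫⁻ ω2, (2⁻¹ * P0 D μ ((fun ω1 => (ω1, ω2)) ⁻¹' B1) +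
            ee (cc D ^ (k + 1) * (θ * Ti nb qE (Gr nb rE y) y ω2))) ∂(P0 D μ) := by
            rw [lintegral_add_right _ hme, lintegral_const_mul']
            · congr 1
              unfold ell Li
              simp_rw [mul_assoc]
            · simp
        _ ≤ ∫⁻ _, 1 ∂(P0 D μ) := lintegral_mono h3
        _ = 1 := by simp
    have h5 : 2⁻¹ * ∫⁻ ω2, P0 D μ ((fun ω1 => (ω1, ω2)) ⁻¹' B1) ∂(P0 D μ) + (1 - ε) ≤
        ε + (1 - ε) := by
      calc _ ≤ 2⁻¹ * ∫⁻ ω2, P0 D μ ((fun ω1 => (ω1, ω2)) ⁻¹' B1) ∂(P0 D μ) +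
            ell μ nb qE rE (cc D ^ (k + 1) * θ) y := by gcongr
        _ ≤ 1 := h4
        _ = _ := by
          rw [add_tsub_cancel_of_le]
          exact hε2.trans (ENNReal.inv_le_one.2 (by norm_num))
    have h6 := (ENNReal.add_le_add_iff_right
      (ne_top_of_le_ne_top ENNReal.one_ne_top tsub_le_self)).1 h5
    calc _ = 2 * (2⁻¹ * ∫⁻ ω2, P0 D μ ((fun ω1 => (ω1, ω2)) ⁻¹' B1) ∂(P0 D μ)) := by
          rw [← mul_assoc, ENNReal.mul_inv_cancel (by norm_num) (by norm_num), one_mul]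
      _ ≤ 2 * ε := by gcongr
  have hcm := measurableSet_common (nb := nb) x y (2 * n0) L
  have hP2 : ((P0 D μ).prod (P0 D μ)) (common nb x y (2 * n0) L \ B1) ≤ 6 * ε := by
    rw [Measure.prod_apply (hcm.diff hB1m)]
    calc _ ≤ ∫⁻ _, 6 * ε ∂(P0 D μ) := by
          refine lintegral_mono fun ω1 => ?_
          set A := (finite_hit (nb := nb) x L ω1).toFinset with hA
          refine le_trans (measure_mono ?_) (hits hell hqE1 hqEL A y n0)
          rintro ω2 ⟨⟨F, hFc, hFh⟩, hnB⟩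
          refine ⟨?_, ?_⟩
          · rw [← hFc]
            refine Finset.card_le_card fun z hz => Finset.mem_filter.2 ⟨?_, (hFh z hz).2⟩
            rw [hA, Set.Finite.mem_toFinset]
            exact (hFh z hz).1
          · by_contra hge
            push Not at hge
            apply hnB
            obtain ⟨F', hF'sub, hF'c⟩ := Finset.exists_subset_card_eq hge
            refine ⟨F', hF'c, fun z hz => ?_⟩
            obtain ⟨h1, h2⟩ := Finset.mem_filter.1 (hF'sub hz)
            rw [hA, Set.Finite.mem_toFinset] at h1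
            exact ⟨h1, h2⟩
      _ = 6 * ε := by simp
  calc ((P0 D μ).prod (P0 D μ)) (common nb x y (2 * n0) L)
      ≤ ((P0 D μ).prod (P0 D μ)) (B1 ∪ (common nb x y (2 * n0) L \ B1)) :=
        measure_mono (by
          intro p hp
          by_cases h : p ∈ B1
          · exact Or.inl h
          · exact Or.inr ⟨hp, h⟩)
    _ ≤ 2 * ε + 6 * ε := (measure_union_le _ _).trans (add_le_add hP1 hP2)
    _ = 8 * ε := by ring

/-- visited vertices -/
def vis (nb : V → Fin D → V) (x : V) (ω : Om D) : Set V := {z | ∃ j, at' nb x j z ω}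

/-- **two independent critical branching random walks intersect finitely** -/
theorem finite_inter (hR : RW nb) [Countable V] (h0 : μ 0 = 0) {M : ℝ}
    (hmean : mean μ = ENNReal.ofReal M) (hM : 1 < M) (h1 : μ 1 < 1)
    (hF : ∀ r : ℝ≥0∞, r < mean μ → ∀ x, Fr nb r x x ≠ ∞) (x y : V) :
    ∀ᵐ p ∂((P0 D μ).prod (P0 D μ)), (vis nb x p.1 ∩ vis nb y p.2).Finite := by
  rw [ae_iff]
  have key : ∀ ε : ℝ≥0∞, ε ≠ 0 → ε ≤ 2⁻¹ →
      ((P0 D μ).prod (P0 D μ)) {p | ¬ (vis nb x p.1 ∩ vis nb y p.2).Finite} ≤ 8 * ε := by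
    intro ε hε hε2
    obtain ⟨n, hn⟩ := prob_common hR h0 hmean hM h1 hF hε hε2 x y
    have hmono : Monotone fun L => common nb x y n L := by
      intro L L' hLL' p hp
      obtain ⟨F, hFc, hFh⟩ := hp
      refine ⟨F, hFc, fun z hz => ?_⟩
      obtain ⟨⟨j, hj, ha⟩, ⟨j', hj', ha'⟩⟩ := hFh z hz
      exact ⟨⟨j, hj.trans hLL', ha⟩, ⟨j', hj'.trans hLL', ha'⟩⟩
    have hsub : {p : Om D × Om D | ¬ (vis nb x p.1 ∩ vis nb y p.2).Finite} ⊆
        ⋃ L, common nb x y n L := by
      intro p hp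
      obtain ⟨F, hFsub, hFc⟩ := Set.Infinite.exists_subset_card_eq (show
        (vis nb x p.1 ∩ vis nb y p.2).Infinite from hp) n
      have hch : ∀ z ∈ F, ∃ L : ℕ, hit nb x L z p.1 ∧ hit nb y L z p.2 := by
        intro z hz
        obtain ⟨⟨j, ha⟩, ⟨j', ha'⟩⟩ := hFsub hz
        exact ⟨max j.length j'.length, ⟨j, le_max_left _ _, ha⟩, ⟨j', le_max_right _ _, ha'⟩⟩
      choose! l hl using hch
      refine Set.mem_iUnion.2 ⟨F.sup l, F, hFc, fun z hz => ?_⟩
      obtain ⟨⟨j, hj, ha⟩, ⟨j', hj', ha'⟩⟩ := hl z hz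
      have hle : l z ≤ F.sup l := Finset.le_sup hz
      exact ⟨⟨j, hj.trans hle, ha⟩, ⟨j', hj'.trans hle, ha'⟩⟩
    refine (measure_mono hsub).trans ?_
    rw [hmono.measure_iUnion]
    exact iSup_le hn
  by_contra hne
  set a := ((P0 D μ).prod (P0 D μ)) {p | ¬ (vis nb x p.1 ∩ vis nb y p.2).Finite} with ha
  have hat : a ≤ 1 := prob_le_one
  have h16 : a / 16 ≠ 0 := ENNReal.div_ne_zero.2 ⟨hne, by norm_num⟩
  have h17 : a / 16 ≤ 2⁻¹ := by
    calc a / 16 ≤ 1 / 2 := by
          apply ENNReal.div_le_div hat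
          norm_num
      _ = 2⁻¹ := by rw [one_div]
  have h2 := key (a / 16) h16 h17
  have hat' : a ≠ ∞ := ne_top_of_le_ne_top ENNReal.one_ne_top hat
  have h3 : 8 * (a / 16) = a / 2 := by
    rw [div_eq_mul_inv, div_eq_mul_inv, mul_left_comm]
    congr 1
    have : (16 : ℝ≥0∞) = 8 * 2 := by norm_num
    rw [this, ENNReal.mul_inv (by norm_num) (by norm_num), ← mul_assoc,
      ENNReal.mul_inv_cancel (by norm_num) (by norm_num), one_mul]
  rw [h3] at h2
  exact absurd h2 (not_le.2 (ENNReal.half_lt_self hne hat'))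

end Pool.Agent.L7h96.BRW
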