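import Pool.Agent.L7h96.BRW.Main

/-!
Almost sure properties of the labelled tree.
-/

set_option autoImplicit false
set_option linter.unusedSectionVars false

namespace Pool.Agent.L7h96.BRW

open MeasureTheory ProbabilityTheory Filter
open scoped ENNReal Classical Topology

variable {V : Type*} {D : ℕ} {nb : V → Fin D → V}

theorem alive_append (u v : List ℕ) (ω : Om D) :
    alive (u ++ v) ω ↔ alive u ω ∧ alive v (sh u ω) := by
  induction u generalizing ω with
  | nil => simp [alive]
  | cons c u ih =>
    show (c < (ω []).1 ∧ alive (u ++ v) (sh [c] ω)) ↔ (c < (ω []).1 ∧ alive u (sh [c] ω)) ∧ _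
    rw [ih, sh_sh, and_assoc]
    rfl

theorem pos_append (x : V) (u v : List ℕ) (ω : Om D) :
    pos nb x (u ++ v) ω = pos nb (pos nb x u ω) v (sh u ω) := by
  induction u generalizing x ω with
  | nil => simp [pos]
  | cons c u ih =>
    show pos nb (nb x (st c ω)) (u ++ v) (sh [c] ω) = pos nb (pos nb (nb x (st c ω)) u (sh [c] ω)) v _
    rw [ih, sh_sh]
    rfl

theorem alive_snoc (u : List ℕ) (c : ℕ) (ω : Om D) :
    alive (u ++ [c]) ω ↔ alive u ω ∧ c < (ω u).1 := by
  rw [alive_append]
  simp [alive, sh]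

theorem pos_snoc (x : V) (u : List ℕ) (c : ℕ) (ω : Om D) :
    pos nb x (u ++ [c]) ω = nb (pos nb x u ω) ((ω u).2 c) := by
  rw [pos_append]
  simp [pos, sh, st]

variable [NeZero D] {μ : PMF ℕ}

/-- the subtrees of incomparable particles are independent -/
theorem map_pair {u v : List ℕ} (huv : ¬ u <+: v) (hvu : ¬ v <+: u) :
    (P0 D μ).map (fun ω => (sh u ω, sh v ω)) = (P0 D μ).prod (P0 D μ) := by
  have e : ∀ ω : Om D, sh u (md v ω) = sh u ω := by
    intro ω
    funext w
    unfold sh md
    rw [if_neg]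
    intro hp
    rcases List.prefix_or_prefix_of_prefix hp (List.prefix_append u w) with h | h
    · exact hvu h
    · exact huv h
  have h1 : IndepFun (fun ω : Om D => sh u ω) (sh v) (P0 D μ) := by
    have h2 := (indep_md_sh (D := D) (μ := μ) v).comp (measurable_sh u) measurable_id
    have h3 : (sh u ∘ md v) = fun ω : Om D => sh u ω := by
      funext ω
      exact e ω
    rw [h3] at h2
    exact h2
  have h4 := (indepFun_iff_map_prod_eq_prod_map_map (measurable_sh u).aemeasurable
      (measurable_sh v).aemeasurable).1 h1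
  rw [h4]
  congr 1
  · exact map_sh u
  · exact map_sh v

theorem ae_pair (hR : RW nb) [Countable V] (h0 : μ 0 = 0) {M : ℝ}
    (hmean : mean μ = ENNReal.ofReal M) (hM : 1 < M) (h1 : μ 1 < 1)
    (hF : ∀ r : ℝ≥0∞, r < mean μ → ∀ x, Fr nb r x x ≠ ∞) :
    ∀ᵐ ω ∂(P0 D μ), ∀ u v : List ℕ, ¬ u <+: v → ¬ v <+: u → ∀ x y : V,
      (vis nb x (sh u ω) ∩ vis nb y (sh v ω)).Finite := by
  rw [ae_all_iff]
  intro u
  rw [ae_all_iff]
  intro v
  by_cases huv : u <+: v
  · exact Eventually.of_forall fun ω h => absurd huv h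
  by_cases hvu : v <+: u
  · exact Eventually.of_forall fun ω _ h => absurd hvu h
  have h2 : ∀ᵐ ω ∂(P0 D μ), ∀ x y : V, (vis nb x (sh u ω) ∩ vis nb y (sh v ω)).Finite := by
    rw [ae_all_iff]
    intro x
    rw [ae_all_iff]
    intro y
    have h3 := finite_inter hR h0 hmean hM h1 hF x y
    rw [← map_pair (μ := μ) huv hvu] at h3
    exact ae_of_ae_map ((measurable_sh u).prodMk (measurable_sh v)).aemeasurable h3
  filter_upwards [h2] with ω hω _ _
  exact hω

theorem measure_num (w : List ℕ) (s : Set ℕ) :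
    P0 D μ {ω | (ω w).1 ∈ s} = μ.toMeasure s := by
  have h : P0 D μ {ω | (ω w).1 ∈ s} = nu D μ {l | l.1 ∈ s} := by
    rw [← map_coord w, Measure.map_apply (measurable_pi_apply w)
      (measurable_fst (MeasurableSet.of_discrete (s := s)))]
    rfl
  rw [h]
  unfold nu
  have : {l : Lab D | l.1 ∈ s} = s ×ˢ Set.univ := by
    ext l
    simp
  rw [this, Measure.prod_prod, measure_univ, mul_one]

theorem ae_child (h0 : μ 0 = 0) : ∀ᵐ ω ∂(P0 D μ), ∀ w : List ℕ, 1 ≤ (ω w).1 := by
  rw [ae_all_iff]
  intro w
  rw [ae_iff]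
  have : {ω : Om D | ¬ 1 ≤ (ω w).1} = {ω : Om D | (ω w).1 ∈ ({0} : Set ℕ)} := by
    ext ω
    simp
  rw [this, measure_num, PMF.toMeasure_apply_singleton _ _ (measurableSet_singleton 0), h0]

theorem ae_split (h0 : μ 0 = 0) (h1 : μ 1 < 1) :
    ∀ᵐ ω ∂(P0 D μ), ∀ k0 : ℕ, ∃ k ≥ k0, 2 ≤ (ω (List.replicate k 0)).1 := by
  rw [ae_all_iff]
  intro k0
  rw [ae_iff]
  have hle : ∀ n : ℕ, P0 D μ {ω | ¬ ∃ k ≥ k0, 2 ≤ (ω (List.replicate k 0)).1} ≤ μ 1 ^ n := by
    intro n
    set s : Finset (List ℕ) := (Finset.range n).image fun i => List.replicate (k0 + i) 0 with hs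
    have hcard : s.card = n := by
      rw [hs, Finset.card_image_of_injective, Finset.card_range]
      intro a b hab
      have := congrArg List.length hab
      simp at this
      exact this
    have h2 : P0 D μ (Set.pi s fun _ => {l : Lab D | l.1 ∈ ({0, 1} : Set ℕ)}) = μ 1 ^ n := by
      unfold P0
      rw [Measure.infinitePi_pi]
      · rw [Finset.prod_const, hcard]
        congr 1
        have h3 := measure_num (D := D) (μ := μ) [] ({0, 1} : Set ℕ)
        have h4 : P0 D μ {ω | (ω []).1 ∈ ({0, 1} : Set ℕ)} = nu D μ {l | l.1 ∈ ({0, 1} : Set ℕ)} := by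
          rw [← map_coord [], Measure.map_apply (measurable_pi_apply [])
            (measurable_fst (MeasurableSet.of_discrete (s := ({0, 1} : Set ℕ))))]
          rfl
        rw [← h4, h3, PMF.toMeasure_apply _ (MeasurableSet.of_discrete)]
        rw [tsum_eq_single 1]
        · simp
        · intro k hk
          rcases Nat.eq_zero_or_pos k with rfl | hk'
          · simp [h0]
          · rw [Set.indicator_of_notMem]
            simp
            omega
      · intro i _
        exact measurable_fst (MeasurableSet.of_discrete (s := ({0, 1} : Set ℕ)))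
    rw [← h2]
    apply measure_mono
    intro ω hω w hw
    rw [Finset.mem_coe, hs, Finset.mem_image] at hw
    obtain ⟨i, -, rfl⟩ := hw
    have hω' : ¬ ∃ k ≥ k0, 2 ≤ (ω (List.replicate k 0)).1 := hω
    push Not at hω'
    have := hω' (k0 + i) (by omega)
    show (ω (List.replicate (k0 + i) 0)).1 ∈ ({0, 1} : Set ℕ)
    simp only [Set.mem_insert_iff, Set.mem_singleton_iff]
    omega
  have ht := ENNReal.tendsto_pow_atTop_nhds_zero_of_lt_one h1
  exact le_antisymm (ge_of_tendsto' ht hle) zero_le

/-- the law of the first line is the walk -/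
theorem measure_line (k : ℕ) (x z : V) :
    P0 D μ {ω | pos nb x (List.replicate k 0) ω = z} = pn nb k x z := by
  induction k generalizing x with
  | zero =>
    by_cases h : x = z
    · simp [pos, pn, h]
    · simp [pos, pn, h]
  | succ k ih =>
    have hm : ∀ i : Fin D, Measurable fun ω : Om D =>
        (if pos nb (nb x i) (List.replicate k 0) ω = z then (1 : ℝ≥0∞) else 0) := fun i =>
      Measurable.ite (measurableSet_pos (nb x i) (List.replicate k 0) z) measurable_const
        measurable_const
    have h1 := peel (μ := μ) (D := D) hm 0 (H := fun _ => 1) measurable_const (fun _ _ _ => rfl)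
    simp only [one_mul] at h1
    have h2 : ∀ i : Fin D, ∫⁻ b, (if pos nb (nb x i) (List.replicate k 0) b = z
        then (1 : ℝ≥0∞) else 0) ∂(P0 D μ) = pn nb k (nb x i) z := by
      intro i
      rw [← ih (nb x i), ← lintegral_indicator_one (measurableSet_pos _ _ _)]
      refine lintegral_congr fun b => ?_
      simp [Set.indicator_apply]
    simp_rw [h2] at h1
    have h3 := lintegral_root (D := D) (μ := μ) (f := fun s : Lab D => pn nb k (nb x (s.2 0)) z)
      ((measurable_of_finite fun i : Fin D => pn nb k (nb x i) z).comp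
        ((measurable_pi_apply 0).comp measurable_snd))
    have h4 : ∫⁻ s : Lab D, pn nb k (nb x (s.2 0)) z ∂(nu D μ) = pn nb (k + 1) x z := by
      unfold nu
      have := lintegral_prod_mul (μ := μ.toMeasure)
        (ν := Measure.infinitePi fun _ : ℕ => (PMF.uniformOfFintype (Fin D)).toMeasure)
        (f := fun _ : ℕ => (1 : ℝ≥0∞)) (g := fun ξ : ℕ → Fin D => pn nb k (nb x (ξ 0)) z)
        aemeasurable_const ((measurable_of_finite fun i : Fin D => pn nb k (nb x i) z).comp
        (measurable_pi_apply 0)).aemeasurable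
      simp only [one_mul, lintegral_const, measure_univ] at this
      rw [this, lintegral_unif (fun i => pn nb k (nb x i) z) 0]
      rfl
    rw [← h4, ← h3]
    refine Eq.trans ?_ h1
    rw [← lintegral_indicator_one (measurableSet_pos _ _ _)]
    refine lintegral_congr fun b => ?_
    simp only [Set.indicator_apply, Pi.one_apply]
    rfl

theorem ae_infinite (hR : RW nb) [Countable V] (h0 : μ 0 = 0) (h1 : 1 < mean μ)
    (hF : ∀ r : ℝ≥0∞, r < mean μ → ∀ x, Fr nb r x x ≠ ∞) :
    ∀ᵐ ω ∂(P0 D μ), ∀ u : List ℕ, ∀ x : V, (vis nb x (sh u ω)).Infinite := by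
  have hbase : ∀ x : V, ∀ᵐ ω ∂(P0 D μ), (vis nb x ω).Infinite := by
    intro x
    have hz : ∀ z : V, ∀ᵐ ω ∂(P0 D μ), ∀ᶠ k in atTop, pos nb x (List.replicate k 0) ω ≠ z := by
      intro z
      have hsum : ∑' k, P0 D μ {ω | pos nb x (List.replicate k 0) ω = z} ≠ ∞ := by
        simp_rw [measure_line]
        have h2 : ∑' k, pn nb k x z = Gr nb 1 x z := by
          unfold Gr
          simp
        rw [h2]
        obtain ⟨K, hK⟩ := harnack hR x z
        have hSup : Sup nb fun a => Gr nb 1 a z := by
          intro a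
          have := Gr_ge_av (nb := nb) (r := 1) a z
          rwa [one_mul] at this
        refine ne_top_of_le_ne_top ?_ (hK _ hSup)
        exact ENNReal.mul_ne_top (ENNReal.pow_ne_top (ENNReal.natCast_ne_top D))
          (ne_top_of_le_ne_top (hF 1 h1 z) (Gr_le_Fr z z))
      have := ae_eventually_notMem hsum
      filter_upwards [this] with ω hω
      exact hω
    rw [← ae_all_iff] at hz
    filter_upwards [hz, ae_child h0] with ω hω hc hfin
    have hal : ∀ k, alive (List.replicate k 0) ω := by
      intro k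
      induction k with
      | zero => trivial
      | succ k ih =>
        rw [List.replicate_succ', alive_snoc]
        exact ⟨ih, hc _⟩
    have hev : ∀ᶠ k in atTop, ∀ z ∈ vis nb x ω, pos nb x (List.replicate k 0) ω ≠ z := by
      rw [← Set.Finite.coe_toFinset hfin]
      exact (Finset.eventually_all (hfin.toFinset)).2 fun z _ => hω z
    obtain ⟨k, hk⟩ := hev.exists
    exact hk _ ⟨List.replicate k 0, hal k, rfl⟩ rfl
  rw [ae_all_iff]
  intro u
  rw [ae_all_iff]
  intro x
  have h := hbase x
  rw [← map_sh (μ := μ) u] at h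
  exact ae_of_ae_map (measurable_sh u).aemeasurable h

end Pool.Agent.L7h96.BRW
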