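import Pool.Agent.L7h96.BRW.Basic

/-!
Additive functionals of branching random walks and their Laplace transforms.
-/

set_option autoImplicit false
set_option linter.unusedSectionVars false

namespace Pool.Agent.L7h96.BRW

open MeasureTheory ProbabilityTheory
open scoped ENNReal

/-- `exp (-t)` -/
noncomputable def ee (t : ℝ≥0∞) : ℝ≥0∞ := (EReal.exp (t : EReal))⁻¹

theorem ee_zero : ee 0 = 1 := by simp [ee]

theorem ee_top : ee ∞ = 0 := by simp [ee]

theorem ee_add (a b : ℝ≥0∞) : ee (a + b) = ee a * ee b := by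
  unfold ee
  rw [EReal.coe_ennreal_add, EReal.exp_add, ENNReal.mul_inv]
  · left
    rw [Ne, EReal.exp_eq_zero_iff]
    exact EReal.coe_ennreal_ne_bot a
  · right
    rw [Ne, EReal.exp_eq_zero_iff]
    exact EReal.coe_ennreal_ne_bot b

theorem ee_anti : Antitone ee := by
  intro a b h
  unfold ee
  rw [ENNReal.inv_le_inv]
  exact EReal.exp_monotone (EReal.coe_ennreal_le_coe_ennreal_iff.2 h)

theorem ee_le_one (t : ℝ≥0∞) : ee t ≤ 1 := by
  rw [← ee_zero]
  exact ee_anti (zero_le)

theorem continuous_ee : Continuous ee :=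
  (continuous_inv.comp (ENNReal.continuous_exp.comp continuous_coe_ennreal_ereal))

theorem measurable_ee : Measurable ee := continuous_ee.measurable

theorem ee_ofReal {t : ℝ} (ht : 0 ≤ t) : ee (ENNReal.ofReal t) = ENNReal.ofReal (Real.exp (-t)) := by
  unfold ee
  rw [EReal.coe_ennreal_ofReal, max_eq_left ht, EReal.exp_coe, Real.exp_neg,
    ENNReal.ofReal_inv_of_pos (Real.exp_pos t)]

theorem ee_sum {ι : Type*} (s : Finset ι) (f : ι → ℝ≥0∞) : ee (∑ i ∈ s, f i) = ∏ i ∈ s, ee (f i) := by
  classical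
  induction s using Finset.induction_on with
  | empty => simp [ee_zero]
  | insert a s ha ih => rw [Finset.sum_insert ha, Finset.prod_insert ha, ee_add, ih]

theorem ee_iSup {f : ℕ → ℝ≥0∞} : ee (⨆ n, f n) = ⨅ n, ee (f n) := by
  exact ee_anti.map_ciSup_of_continuousAt continuous_ee.continuousAt

theorem ee_mul_nat (t : ℝ≥0∞) (k : ℕ) : ee (k * t) = ee t ^ k := by
  induction k with
  | zero => simp [ee_zero]
  | succ k ih => rw [Nat.cast_succ, add_mul, one_mul, ee_add, ih, pow_succ]

/-- `1 ≤ e^{-t} + t` -/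
theorem one_le_ee_add (t : ℝ≥0∞) : 1 ≤ ee t + t := by
  by_cases ht : t = ∞
  · subst ht
    simp
  · have e : t = ENNReal.ofReal t.toReal := (ENNReal.ofReal_toReal ht).symm
    rw [e, ee_ofReal ENNReal.toReal_nonneg, ← ENNReal.ofReal_add (Real.exp_pos _).le
      ENNReal.toReal_nonneg, ← ENNReal.ofReal_one]
    apply ENNReal.ofReal_le_ofReal
    have := Real.add_one_le_exp (-t.toReal)
    linarith

variable {V : Type*} {D : ℕ}

/-- weighted sum of `h` over the particles of the generations `< n` -/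
noncomputable def T (nb : V → Fin D → V) (q : ℝ≥0∞) (h : V → ℝ≥0∞) :
    ℕ → V → Om D → ℝ≥0∞
  | 0, _, _ => 0
  | n + 1, x, ω => h x + q * ∑ c ∈ Finset.range (ω []).1, T nb q h n (nb x (st c ω)) (sh [c] ω)

variable {nb : V → Fin D → V} {q : ℝ≥0∞} {h : V → ℝ≥0∞}

theorem T_succ (n : ℕ) (x : V) (ω : Om D) : T nb q h (n + 1) x ω =
    h x + q * ∑ c ∈ Finset.range (ω []).1, T nb q h n (nb x (st c ω)) (sh [c] ω) := rfl

theorem measurable_branch_sum {F : Fin D → Om D → ℝ≥0∞} (hF : ∀ i, Measurable (F i)) :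
    Measurable (fun ω : Om D => ∑ c ∈ Finset.range (ω []).1, F (st c ω) (sh [c] ω)) := by
  have h : Measurable (fun p : ℕ × Om D => ∑ c ∈ Finset.range p.1, F (st c p.2) (sh [c] p.2)) :=
    measurable_from_prod_countable_right fun k =>
      (Finset.measurable_sum (Finset.range k) fun c _ => measurable_child' hF c :
        Measurable fun ω : Om D => ∑ c ∈ Finset.range k, F (st c ω) (sh [c] ω))
  exact h.comp (measurable_num.prodMk measurable_id)

theorem measurable_T (n : ℕ) (x : V) : Measurable (T nb q h n x) := by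
  induction n generalizing x with
  | zero => exact measurable_const
  | succ n ih =>
    exact measurable_const.add ((measurable_branch_sum fun i => ih (nb x i)).const_mul q)

theorem T_mono_succ (n : ℕ) (x : V) (ω : Om D) : T nb q h n x ω ≤ T nb q h (n + 1) x ω := by
  induction n generalizing x ω with
  | zero => exact zero_le
  | succ n ih =>
    rw [T_succ, T_succ (n + 1)]
    gcongr with c hc
    exact ih _ _

theorem T_mono (x : V) (ω : Om D) : Monotone fun n => T nb q h n x ω :=
  monotone_nat_of_le_succ fun n => T_mono_succ n x ω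

/-- weighted sum over all particles -/
noncomputable def Ti (nb : V → Fin D → V) (q : ℝ≥0∞) (h : V → ℝ≥0∞) (x : V) (ω : Om D) : ℝ≥0∞ :=
  ⨆ n, T nb q h n x ω

theorem measurable_Ti (x : V) : Measurable (Ti nb q h x) :=
  Measurable.iSup fun n => measurable_T n x

theorem Ti_eq (x : V) (ω : Om D) : Ti nb q h x ω =
    h x + q * ∑ c ∈ Finset.range (ω []).1, Ti nb q h (nb x (st c ω)) (sh [c] ω) := by
  unfold Ti
  rw [ENNReal.finsetSum_iSup_of_monotone fun c => T_mono _ _, ENNReal.mul_iSup, ENNReal.add_iSup]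
  apply le_antisymm
  · exact iSup_le fun n => (T_mono_succ n x ω).trans (le_iSup_of_le n le_rfl)
  · exact iSup_le fun n => le_iSup_of_le (n + 1) le_rfl

/-- position of the particle `w` when the root is at `x` -/
def pos (nb : V → Fin D → V) : V → List ℕ → Om D → V
  | x, [], _ => x
  | x, c :: w, ω => pos nb (nb x (st c ω)) w (sh [c] ω)

/-- the particle `w` exists -/
def alive : List ℕ → Om D → Prop
  | [], _ => True
  | c :: w, ω => c < (ω []).1 ∧ alive w (sh [c] ω)

theorem Ti_ge (j : List ℕ) (x : V) (ω : Om D) (hj : alive j ω) :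
    q ^ j.length * Ti nb q h (pos nb x j ω) (sh j ω) ≤ Ti nb q h x ω := by
  induction j generalizing x ω with
  | nil => simp [pos]
  | cons c j ih =>
    have h1 := ih (nb x (st c ω)) (sh [c] ω) hj.2
    rw [sh_sh] at h1
    rw [Ti_eq x ω]
    refine le_trans ?_ le_add_self
    calc q ^ (c :: j).length * Ti nb q h (pos nb x (c :: j) ω) (sh (c :: j) ω)
        = q * (q ^ j.length *
            Ti nb q h (pos nb (nb x (st c ω)) j (sh [c] ω)) (sh ([c] ++ j) ω)) := by
          rw [List.length_cons, pow_succ', mul_assoc]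
          rfl
      _ ≤ q * Ti nb q h (nb x (st c ω)) (sh [c] ω) := by gcongr
      _ ≤ _ := by
          gcongr
          exact Finset.single_le_sum (f := fun c => Ti nb q h (nb x (st c ω)) (sh [c] ω))
            (fun _ _ => zero_le) (Finset.mem_range.2 hj.1)

variable [NeZero D] {μ : PMF ℕ}

/-- expectation -/
theorem lintegral_T_succ (n : ℕ) (x : V) : ∫⁻ ω, T nb q h (n + 1) x ω ∂(P0 D μ) =
    h x + q * (mean μ * av (fun i => ∫⁻ ω, T nb q h n (nb x i) ω ∂(P0 D μ))) := by
  simp_rw [T_succ]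
  rw [lintegral_add_left measurable_const, lintegral_const, measure_univ, mul_one,
    lintegral_const_mul _ (measurable_branch_sum fun i => measurable_T n (nb x i)),
    branch_sum fun i => measurable_T n (nb x i)]

/-- Laplace transform -/
noncomputable def La (μ : PMF ℕ) (nb : V → Fin D → V) (q : ℝ≥0∞) (h : V → ℝ≥0∞) (θ : ℝ≥0∞)
    (n : ℕ) (x : V) : ℝ≥0∞ := ∫⁻ ω, ee (θ * T nb q h n x ω) ∂(P0 D μ)

theorem La_zero (θ : ℝ≥0∞) (x : V) : La μ nb q h θ 0 x = 1 := by
  simp [La, T, ee_zero]

theorem La_succ (θ : ℝ≥0∞) (n : ℕ) (x : V) : La μ nb q h θ (n + 1) x =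
    ee (θ * h x) * Phi μ (av fun i => La μ nb q h (θ * q) n (nb x i)) := by
  unfold La
  simp_rw [T_succ, mul_add, ee_add, ← mul_assoc, Finset.mul_sum, ee_sum]
  rw [lintegral_const_mul]
  · congr 1
    exact branch_prod fun i => measurable_ee.comp ((measurable_T n (nb x i)).const_mul (θ * q))
  · exact measurable_branch fun i => measurable_ee.comp ((measurable_T n (nb x i)).const_mul (θ * q))

/-- Laplace transform of the total sum -/
noncomputable def Li (μ : PMF ℕ) (nb : V → Fin D → V) (q : ℝ≥0∞) (h : V → ℝ≥0∞) (θ : ℝ≥0∞)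
    (x : V) : ℝ≥0∞ := ∫⁻ ω, ee (θ * Ti nb q h x ω) ∂(P0 D μ)

theorem Li_eq_iInf (θ : ℝ≥0∞) (x : V) : Li μ nb q h θ x = ⨅ n, La μ nb q h θ n x := by
  unfold Li La Ti
  simp_rw [ENNReal.mul_iSup, ee_iSup]
  rw [lintegral_iInf]
  · intro n
    exact measurable_ee.comp ((measurable_T n x).const_mul θ)
  · intro n m hnm ω
    exact ee_anti (mul_le_mul_right (T_mono x ω hnm) θ)
  · refine ne_top_of_le_ne_top (b := 1) ENNReal.one_ne_top ?_
    calc _ ≤ ∫⁻ _, 1 ∂(P0 D μ) := lintegral_mono fun ω => ee_le_one _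
      _ = 1 := by simp

end Pool.Agent.L7h96.BRW
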